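import Mathlib

/-!
# The Chebyshev polynomials are dominated at `1` on vertical lines

`|T_n (x + i y)| ≤ |T_n (1 + i y)|` for `-1 ≤ x ≤ 1` (Duffin and Schaeffer), proved through a
positive recursion for the squared moduli.
-/

namespace Pool.Agent.H191.DS

open Complex

/-- The sequence `T_n(z)`, as a sequence of complex numbers. -/
noncomputable def tseq (z : ℂ) : ℕ → ℂ
  | 0 => 1
  | 1 => z
  | (n + 2) => 2 * z * tseq z (n + 1) - tseq z n

/-- The sequence `U_{n-1}(x)`, as a sequence of real numbers. -/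
noncomputable def useq (x : ℝ) : ℕ → ℝ
  | 0 => 0
  | 1 => 1
  | (n + 2) => 2 * x * useq x (n + 1) - useq x n

lemma tseq_eq (z : ℂ) : ∀ n : ℕ, tseq z n = (Polynomial.Chebyshev.T ℂ n).eval z
  | 0 => by simp [tseq]
  | 1 => by simp [tseq]
  | (n + 2) => by
    have h1 := tseq_eq z n
    have h2 := tseq_eq z (n + 1)
    have h3 := Polynomial.Chebyshev.T_add_two ℂ (n : ℤ)
    have e : ((n + 2 : ℕ) : ℤ) = (n : ℤ) + 2 := by push_cast; ring
    have e1 : ((n + 1 : ℕ) : ℤ) = (n : ℤ) + 1 := by push_cast; ring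
    rw [tseq, h1, h2, e, h3, e1]
    simp

/-- `T_{n+1}(x) = x U_n(x) - U_{n-1}(x)`. -/
lemma T_eq_useq (x : ℝ) : ∀ n : ℕ,
    (Polynomial.Chebyshev.T ℝ ((n : ℤ) + 1)).eval x = x * useq x (n + 1) - useq x n
  | 0 => by simp [useq]
  | 1 => by
    have h3 := Polynomial.Chebyshev.T_add_two ℝ (0 : ℤ)
    norm_num at h3
    have e1 : ((1 : ℕ) : ℤ) + 1 = 2 := by norm_num
    rw [e1, Polynomial.Chebyshev.T_two]
    simp [useq]; ring
  | (n + 2) => by
    have h1 := T_eq_useq x n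
    have h2 := T_eq_useq x (n + 1)
    have h3 := Polynomial.Chebyshev.T_add_two ℝ ((n : ℤ) + 1)
    have e : ((n + 2 : ℕ) : ℤ) + 1 = (n : ℤ) + 1 + 2 := by push_cast; ring
    have e1 : ((n + 1 : ℕ) : ℤ) + 1 = (n : ℤ) + 1 + 1 := by push_cast; ring
    rw [e1] at h2
    rw [e, h3]
    simp only [Polynomial.eval_sub, Polynomial.eval_mul, Polynomial.eval_X,
      Polynomial.eval_ofNat]
    rw [h1, h2]
    simp only [useq]
    ring

lemma useq_one : ∀ n : ℕ, useq 1 n = n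
  | 0 => by simp [useq]
  | 1 => by simp [useq]
  | (n + 2) => by
    have h1 := useq_one n
    have h2 := useq_one (n + 1)
    rw [useq, h1, h2]; push_cast; ring

lemma abs_useq_le {x : ℝ} (hx : |x| ≤ 1) : ∀ n : ℕ, |useq x n| ≤ n
  | 0 => by simp [useq]
  | (n + 1) => by
    have h1 := abs_useq_le hx n
    cases n with
    | zero => simp [useq]
    | succ k =>
      have hT := Polynomial.Chebyshev.abs_eval_T_real_le_one ((k : ℤ) + 1) hx
      have h := T_eq_useq x k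
      have e : useq x (k + 1 + 1) = x * useq x (k + 1) +
          (Polynomial.Chebyshev.T ℝ ((k : ℤ) + 1)).eval x := by
        rw [h, useq]; ring
      rw [e]
      calc |x * useq x (k + 1) + (Polynomial.Chebyshev.T ℝ ((k : ℤ) + 1)).eval x|
          ≤ |x * useq x (k + 1)| + |(Polynomial.Chebyshev.T ℝ ((k : ℤ) + 1)).eval x| :=
            abs_add_le _ _
        _ ≤ 1 * ((k + 1 : ℕ) : ℝ) + 1 := by
            rw [abs_mul]
            gcongr
        _ = ((k + 1 + 1 : ℕ) : ℝ) := by push_cast; ring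

/-- squared modulus -/
noncomputable def Pn (x y : ℝ) (n : ℕ) : ℝ := normSq (tseq ⟨x, y⟩ n)
noncomputable def Cn (x y : ℝ) (n : ℕ) : ℝ :=
  (tseq ⟨x, y⟩ (n + 1) * (starRingEnd ℂ) (tseq ⟨x, y⟩ n)).re
noncomputable def Jn (x y : ℝ) (n : ℕ) : ℝ :=
  (tseq ⟨x, y⟩ (n + 1) * (starRingEnd ℂ) (tseq ⟨x, y⟩ n)).im

lemma Pn_succ (x y : ℝ) (n : ℕ) :
    Pn x y (n + 2) = 4 * (x ^ 2 + y ^ 2) * Pn x y (n + 1) + Pn x y n
      - 4 * (x * Cn x y n - y * Jn x y n) := by
  simp only [Pn, Cn, Jn, tseq, normSq_apply, mul_re, mul_im, sub_re, sub_im, conj_re, conj_im,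
    re_ofNat, im_ofNat]
  ring

lemma Cn_succ (x y : ℝ) (n : ℕ) :
    Cn x y (n + 1) = 2 * x * Pn x y (n + 1) - Cn x y n := by
  simp only [Pn, Cn, tseq, normSq_apply, mul_re, mul_im, sub_re, sub_im, conj_re, conj_im,
    re_ofNat, im_ofNat]
  ring

lemma Jn_succ (x y : ℝ) (n : ℕ) :
    Jn x y (n + 1) = 2 * y * Pn x y (n + 1) + Jn x y n := by
  simp only [Pn, Jn, tseq, normSq_apply, mul_re, mul_im, sub_re, sub_im, conj_re, conj_im,
    re_ofNat, im_ofNat]
  ring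

noncomputable def Fmn (x y : ℝ) (m n : ℕ) : ℝ :=
  useq x (m + 1) ^ 2 * Pn x y (n + 1) + useq x m ^ 2 * Pn x y n
    - 2 * useq x (m + 1) * useq x m * Cn x y n

lemma Fmn_succ (x y : ℝ) (m n : ℕ) :
    Fmn x y m (n + 1) = Fmn x y (m + 1) n
      + useq x (m + 1) ^ 2 * (4 * y ^ 2 * Pn x y (n + 1) + 4 * (y * Jn x y n)) := by
  simp only [Fmn, Pn_succ, Cn_succ, useq]
  ring

lemma Fmn_zero_left (x y : ℝ) (n : ℕ) : Fmn x y 0 n = Pn x y (n + 1) := by
  simp [Fmn, useq]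

lemma Fmn_zero_right (x y : ℝ) (m : ℕ) :
    Fmn x y m 0 = ((Polynomial.Chebyshev.T ℝ ((m : ℤ) + 1)).eval x) ^ 2
      + y ^ 2 * useq x (m + 1) ^ 2 := by
  rw [T_eq_useq]
  simp only [Fmn, Pn, Cn, tseq, normSq_apply, mul_re, conj_re, conj_im, one_re, one_im]
  ring

lemma Pn_nonneg (x y : ℝ) (n : ℕ) : 0 ≤ Pn x y n := normSq_nonneg _

lemma yJn_zero (x y : ℝ) : y * Jn x y 0 = y ^ 2 := by
  simp only [Jn, tseq, mul_im, conj_re, conj_im, one_re, one_im]
  ring

lemma yJn_nonneg (x y : ℝ) : ∀ n, 0 ≤ y * Jn x y n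
  | 0 => by rw [yJn_zero]; positivity
  | (n + 1) => by
    have h := yJn_nonneg x y n
    have h2 := Pn_nonneg x y (n + 1)
    rw [Jn_succ]
    nlinarith [mul_nonneg (sq_nonneg y) h2]

lemma cheb_key {x : ℝ} (hx : |x| ≤ 1) (y : ℝ) : ∀ n : ℕ,
    (∀ m, Fmn x y m n ≤ Fmn 1 y m n) ∧ y * Jn x y n ≤ y * Jn 1 y n
  | 0 => by
    constructor
    · intro m
      rw [Fmn_zero_right, Fmn_zero_right]
      have h1 := Polynomial.Chebyshev.abs_eval_T_real_le_one ((m : ℤ) + 1) hx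
      have h2 : (Polynomial.Chebyshev.T ℝ ((m : ℤ) + 1)).eval (1 : ℝ) = 1 := by simp
      have h3 := abs_useq_le hx (m + 1)
      have h4 := useq_one (m + 1)
      rw [h2, h4]
      have h5 : ((Polynomial.Chebyshev.T ℝ ((m : ℤ) + 1)).eval x) ^ 2 ≤ 1 ^ 2 := by
        rw [sq_le_sq]; simpa using h1
      have h6 : useq x (m + 1) ^ 2 ≤ ((m + 1 : ℕ) : ℝ) ^ 2 := by
        rw [sq_le_sq, Nat.abs_cast]; exact h3
      have := mul_le_mul_of_nonneg_left h6 (sq_nonneg y)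
      linarith
    · rw [yJn_zero, yJn_zero]
  | (n + 1) => by
    obtain ⟨h1, h2⟩ := cheb_key hx y n
    have hP : Pn x y (n + 1) ≤ Pn 1 y (n + 1) := by
      have := h1 0
      rwa [Fmn_zero_left, Fmn_zero_left] at this
    constructor
    · intro m
      rw [Fmn_succ, Fmn_succ]
      have h3 := h1 (m + 1)
      have h4 := abs_useq_le hx (m + 1)
      have h5 := useq_one (m + 1)
      have h6 : useq x (m + 1) ^ 2 ≤ useq 1 (m + 1) ^ 2 := by
        rw [h5, sq_le_sq, Nat.abs_cast]; exact h4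
      have h7 := Pn_nonneg x y (n + 1)
      have h8 := yJn_nonneg x y n
      have h9 : 4 * y ^ 2 * Pn x y (n + 1) + 4 * (y * Jn x y n) ≤
          4 * y ^ 2 * Pn 1 y (n + 1) + 4 * (y * Jn 1 y n) := by
        have := mul_le_mul_of_nonneg_left hP (sq_nonneg y)
        linarith
      have h10 : 0 ≤ 4 * y ^ 2 * Pn x y (n + 1) + 4 * (y * Jn x y n) := by positivity
      have h11 := mul_le_mul h6 h9 h10 (sq_nonneg _)
      linarith
    · rw [Jn_succ, Jn_succ]
      have := mul_le_mul_of_nonneg_left hP (sq_nonneg y)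
      nlinarith

/-- **Duffin and Schaeffer**: Chebyshev polynomials are dominated at `1` on vertical lines. -/
theorem cheb_dominated (n : ℕ) {x : ℝ} (hx : |x| ≤ 1) (y : ℝ) :
    normSq ((Polynomial.Chebyshev.T ℂ n).eval ⟨x, y⟩) ≤
      normSq ((Polynomial.Chebyshev.T ℂ n).eval ⟨1, y⟩) := by
  rw [← tseq_eq, ← tseq_eq]
  cases n with
  | zero => simp [tseq]
  | succ k =>
    have := (cheb_key hx y k).1 0
    rwa [Fmn_zero_left, Fmn_zero_left] at this

end Pool.Agent.H191.DS
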