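import Mathlib

/-!
# The sign pattern at a stationary point

Algebra and elementary inequalities: at a stationary point of
`|Q(x+iy)| / |Q(1+iy)|` the first variation has a fixed sign pattern in the critical points.
-/

namespace Pool.Agent.H191.DS

open Finset

variable {m : ℕ}

/-- `|(x+iy)^2 - s|^2`. -/
noncomputable def Nk (x y s : ℝ) : ℝ := (x ^ 2 - y ^ 2 - s) ^ 2 + 4 * x ^ 2 * y ^ 2

/-- Real part of `Q'/Q` at `x + iy`. -/
noncomputable def Aab (e : ℕ) (s : Fin m → ℝ) (x y : ℝ) : ℝ :=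
  (e : ℝ) * x / (x ^ 2 + y ^ 2) + ∑ k, 2 * x * (x ^ 2 + y ^ 2 - s k) / Nk x y (s k)

/-- Minus the imaginary part of `Q'/Q` at `x + iy`. -/
noncomputable def Bab (e : ℕ) (s : Fin m → ℝ) (x y : ℝ) : ℝ :=
  (e : ℝ) * y / (x ^ 2 + y ^ 2) + ∑ k, 2 * y * (x ^ 2 + y ^ 2 + s k) / Nk x y (s k)

lemma Nk_eq (x y a : ℝ) : Nk x y (a ^ 2) = ((x - a) ^ 2 + y ^ 2) * ((x + a) ^ 2 + y ^ 2) := by
  unfold Nk; ring

lemma Nk_pos {x y s : ℝ} (hx : 0 ≤ x) (hy : 0 < y) (hs : 0 ≤ s) : 0 < Nk x y s := by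
  unfold Nk
  rcases hx.eq_or_lt with h | h
  · subst h
    have : 0 < y ^ 2 + s := by positivity
    have h2 : (0 ^ 2 - y ^ 2 - s) ^ 2 = (y ^ 2 + s) ^ 2 := by ring
    rw [h2]; positivity
  · have : 0 < 4 * x ^ 2 * y ^ 2 := by positivity
    positivity

/-- The termwise inequality. -/
lemma pair_ineq {a x y : ℝ} (hx : 0 ≤ x) (hx1 : x < 1) (hy : 0 < y) (ha : 0 ≤ a) :
    -((1 - x) / 2) * (2 * y * (1 ^ 2 + y ^ 2 + a ^ 2) / Nk 1 y (a ^ 2)) / y
      + 2 * 1 * (1 ^ 2 + y ^ 2 - a ^ 2) / Nk 1 y (a ^ 2) <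
    ((1 - x) / 2) * (2 * y * (x ^ 2 + y ^ 2 + a ^ 2) / Nk x y (a ^ 2)) / y
      + 2 * x * (x ^ 2 + y ^ 2 - a ^ 2) / Nk x y (a ^ 2) := by
  rw [Nk_eq, Nk_eq]
  have hW1 : 0 < (1 - a) ^ 2 + y ^ 2 := by positivity
  have hW2 : 0 < (1 + a) ^ 2 + y ^ 2 := by positivity
  have hV1 : 0 < (x - a) ^ 2 + y ^ 2 := by positivity
  have hV2 : 0 < (x + a) ^ 2 + y ^ 2 := by positivity
  set W1 := (1 - a) ^ 2 + y ^ 2 with hW1d
  set W2 := (1 + a) ^ 2 + y ^ 2 with hW2d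
  set V1 := (x - a) ^ 2 + y ^ 2 with hV1d
  set V2 := (x + a) ^ 2 + y ^ 2 with hV2d
  have e1 : -((1 - x) / 2) * (2 * y * (1 ^ 2 + y ^ 2 + a ^ 2) / (W1 * W2)) / y
      + 2 * 1 * (1 ^ 2 + y ^ 2 - a ^ 2) / (W1 * W2) =
      ((1 + x) / 2 - a) / W1 + ((1 + x) / 2 + a) / W2 := by
    field_simp
    rw [hW1d, hW2d]; ring
  have e2 : ((1 - x) / 2) * (2 * y * (x ^ 2 + y ^ 2 + a ^ 2) / (V1 * V2)) / y
      + 2 * x * (x ^ 2 + y ^ 2 - a ^ 2) / (V1 * V2) =
      ((1 + x) / 2 - a) / V1 + ((1 + x) / 2 + a) / V2 := by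
    field_simp
    rw [hV1d, hV2d]; ring
  rw [e1, e2]
  have h1 : ((1 + x) / 2 - a) / W1 ≤ ((1 + x) / 2 - a) / V1 := by
    rw [div_le_div_iff₀ hW1 hV1, hW1d, hV1d]
    nlinarith [mul_nonneg (sub_nonneg.2 hx1.le) (sq_nonneg ((1 + x) / 2 - a))]
  have h2 : ((1 + x) / 2 + a) / W2 < ((1 + x) / 2 + a) / V2 := by
    apply div_lt_div_of_pos_left (by positivity) hV2
    rw [hW2d, hV2d]
    nlinarith
  linarith

lemma zero_ineq {x y : ℝ} (hx : 0 ≤ x) (hx1 : x < 1) (hy : 0 < y) :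
    -((1 - x) / 2) * (y / (1 ^ 2 + y ^ 2)) / y + 1 / (1 ^ 2 + y ^ 2) ≤
    ((1 - x) / 2) * (y / (x ^ 2 + y ^ 2)) / y + x / (x ^ 2 + y ^ 2) := by
  have hW : 0 < 1 ^ 2 + y ^ 2 := by positivity
  have hV : 0 < x ^ 2 + y ^ 2 := by positivity
  have e1 : -((1 - x) / 2) * (y / (1 ^ 2 + y ^ 2)) / y + 1 / (1 ^ 2 + y ^ 2) =
      ((1 + x) / 2) / (1 ^ 2 + y ^ 2) := by
    field_simp; ring
  have e2 : ((1 - x) / 2) * (y / (x ^ 2 + y ^ 2)) / y + x / (x ^ 2 + y ^ 2) =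
      ((1 + x) / 2) / (x ^ 2 + y ^ 2) := by
    field_simp; ring
  rw [e1, e2]
  apply div_le_div_of_nonneg_left (by positivity) hV
  nlinarith

/-- Consequences of stationarity. -/
theorem stat_ineq (e : ℕ) (s : Fin m → ℝ) (hm : 0 < m) (hs0 : ∀ k, 0 ≤ s k)
    {x y : ℝ} (hx : 0 ≤ x) (hx1 : x < 1) (hy : 0 < y)
    (hA : Aab e s x y = 0) (hB : Bab e s x y = Bab e s 1 y) :
    Aab e s 1 y * y < Bab e s 1 y * (1 - x) := by
  have key : -((1 - x) / 2) * (Bab e s 1 y) / y + Aab e s 1 y <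
      ((1 - x) / 2) * (Bab e s x y) / y + Aab e s x y := by
    unfold Aab Bab
    have hsum : ∑ k, (-((1 - x) / 2) * (2 * y * (1 ^ 2 + y ^ 2 + s k) / Nk 1 y (s k)) / y
        + 2 * 1 * (1 ^ 2 + y ^ 2 - s k) / Nk 1 y (s k)) <
        ∑ k, (((1 - x) / 2) * (2 * y * (x ^ 2 + y ^ 2 + s k) / Nk x y (s k)) / y
        + 2 * x * (x ^ 2 + y ^ 2 - s k) / Nk x y (s k)) := by
      have : Nonempty (Fin m) := ⟨⟨0, hm⟩⟩
      apply Finset.sum_lt_sum_of_nonempty univ_nonempty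
      intro k _
      have h := pair_ineq hx hx1 hy (Real.sqrt_nonneg (s k))
      rwa [Real.sq_sqrt (hs0 k)] at h
    have h0 := zero_ineq hx hx1 hy
    have he : (0:ℝ) ≤ e := Nat.cast_nonneg e
    have h1 := mul_le_mul_of_nonneg_left h0 he
    rw [Finset.sum_add_distrib, Finset.sum_add_distrib] at hsum
    have r1 : ∑ k, -((1 - x) / 2) * (2 * y * (1 ^ 2 + y ^ 2 + s k) / Nk 1 y (s k)) / y =
        -((1 - x) / 2) * (∑ k, 2 * y * (1 ^ 2 + y ^ 2 + s k) / Nk 1 y (s k)) / y := by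
      rw [Finset.mul_sum, Finset.sum_div]
    have r2 : ∑ k, ((1 - x) / 2) * (2 * y * (x ^ 2 + y ^ 2 + s k) / Nk x y (s k)) / y =
        ((1 - x) / 2) * (∑ k, 2 * y * (x ^ 2 + y ^ 2 + s k) / Nk x y (s k)) / y := by
      rw [Finset.mul_sum, Finset.sum_div]
    rw [r1, r2] at hsum
    have e1 : -((1 - x) / 2) * ((e : ℝ) * y / (1 ^ 2 + y ^ 2) +
        ∑ k, 2 * y * (1 ^ 2 + y ^ 2 + s k) / Nk 1 y (s k)) / y +
        ((e : ℝ) * 1 / (1 ^ 2 + y ^ 2) + ∑ k, 2 * 1 * (1 ^ 2 + y ^ 2 - s k) / Nk 1 y (s k)) =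
        (e : ℝ) * (-((1 - x) / 2) * (y / (1 ^ 2 + y ^ 2)) / y + 1 / (1 ^ 2 + y ^ 2)) +
        (-((1 - x) / 2) * (∑ k, 2 * y * (1 ^ 2 + y ^ 2 + s k) / Nk 1 y (s k)) / y +
        ∑ k, 2 * 1 * (1 ^ 2 + y ^ 2 - s k) / Nk 1 y (s k)) := by
      ring
    have e2 : ((1 - x) / 2) * ((e : ℝ) * y / (x ^ 2 + y ^ 2) +
        ∑ k, 2 * y * (x ^ 2 + y ^ 2 + s k) / Nk x y (s k)) / y +
        ((e : ℝ) * x / (x ^ 2 + y ^ 2) + ∑ k, 2 * x * (x ^ 2 + y ^ 2 - s k) / Nk x y (s k)) =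
        (e : ℝ) * (((1 - x) / 2) * (y / (x ^ 2 + y ^ 2)) / y + x / (x ^ 2 + y ^ 2)) +
        (((1 - x) / 2) * (∑ k, 2 * y * (x ^ 2 + y ^ 2 + s k) / Nk x y (s k)) / y +
        ∑ k, 2 * x * (x ^ 2 + y ^ 2 - s k) / Nk x y (s k)) := by
      ring
    rw [e1, e2]
    linarith
  rw [hA, hB, add_zero] at key
  have h2 : Aab e s 1 y < Bab e s 1 y / y * (1 - x) := by
    have e3 : -((1 - x) / 2) * Bab e s 1 y / y = -((1 - x) / 2) * (Bab e s 1 y / y) := by ring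
    have e4 : ((1 - x) / 2) * Bab e s 1 y / y = ((1 - x) / 2) * (Bab e s 1 y / y) := by ring
    rw [e3, e4] at key
    linarith
  calc Aab e s 1 y * y < (Bab e s 1 y / y * (1 - x)) * y := mul_lt_mul_of_pos_right h2 hy
    _ = Bab e s 1 y * (1 - x) := by field_simp

theorem Aab_one_pos (e : ℕ) (s : Fin m → ℝ) (hm : 0 < m) (hs0 : ∀ k, 0 ≤ s k)
    (hs1 : ∀ k, s k ≤ 1) {y : ℝ} (hy : 0 < y) : 0 < Aab e s 1 y := by
  unfold Aab
  have h1 : 0 ≤ (e : ℝ) * 1 / (1 ^ 2 + y ^ 2) := by positivity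
  have h2 : 0 < ∑ k, 2 * 1 * (1 ^ 2 + y ^ 2 - s k) / Nk 1 y (s k) := by
    have : Nonempty (Fin m) := ⟨⟨0, hm⟩⟩
    apply Finset.sum_pos _ univ_nonempty
    intro k _
    have := Nk_pos (x := 1) zero_le_one hy (hs0 k)
    have h3 := hs1 k
    have : 0 < 1 ^ 2 + y ^ 2 - s k := by nlinarith [sq_pos_of_pos hy]
    positivity
  linarith

theorem stat_norm (e : ℕ) (s : Fin m → ℝ) (hm : 0 < m) (hs0 : ∀ k, 0 ≤ s k)
    (hs1 : ∀ k, s k < 1) {x y : ℝ} (hx : 0 ≤ x) (hy : 0 < y) (hy1 : y < 1)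
    (hA : Aab e s x y = 0) : x ^ 2 + y ^ 2 < 1 := by
  rcases hx.eq_or_lt with h | h
  · subst h; nlinarith
  · by_contra hcon
    push Not at hcon
    have h1 : 0 ≤ (e : ℝ) * x / (x ^ 2 + y ^ 2) := by positivity
    have h2 : 0 < ∑ k, 2 * x * (x ^ 2 + y ^ 2 - s k) / Nk x y (s k) := by
      have : Nonempty (Fin m) := ⟨⟨0, hm⟩⟩
      apply Finset.sum_pos _ univ_nonempty
      intro k _
      have := Nk_pos hx hy (hs0 k)
      have h3 := hs1 k
      have : 0 < x ^ 2 + y ^ 2 - s k := by linarith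
      positivity
    unfold Aab at hA
    linarith

/-- Numerator of the first variation coming from `1 + i y`. -/
noncomputable def R1 (A B y T : ℝ) : ℝ :=
  (1 - T) * y * (3 * A * y + B * y ^ 2 - 2 * B) - y ^ 2 * (y ^ 2 + 4) * (A + B * y)

/-- Numerator of the first variation coming from `x + i y`. -/
noncomputable def R2 (B x y T : ℝ) : ℝ :=
  -(B * y * ((x ^ 2 + y ^ 2) * (1 + x ^ 2 + y ^ 2) + T * (1 - 3 * x ^ 2 + y ^ 2)))

noncomputable def kap (A B x y T : ℝ) : ℝ := R1 A B y T / Nk 1 y T - R2 B x y T / Nk x y T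

noncomputable def NN (A B x y T : ℝ) : ℝ := R1 A B y T * Nk x y T - R2 B x y T * Nk 1 y T

lemma cubic_pattern (n0 n1 n2 n3 : ℝ) (h3 : 0 < n3) (h0 : 0 < n0)
    (h1 : n0 + n1 + n2 + n3 < 0) {a b : ℝ} (ha : 0 ≤ a) (hab : a < b) (hb : b < 1)
    (hNa : n0 + n1 * a + n2 * a ^ 2 + n3 * a ^ 3 ≤ 0) :
    n0 + n1 * b + n2 * b ^ 2 + n3 * b ^ 3 ≤ 0 := by
  by_contra hcon
  push Not at hcon
  have hapos : 0 < a := by
    rcases ha.eq_or_lt with h | h
    · subst h; norm_num at hNa; linarith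
    · exact h
  have key : n3 * (a * b * (1 - a) * (1 - b) * (b - a)) =
      -(n0 * ((1 - a) * (1 - b) * (b - a)))
      + (n0 + n1 * a + n2 * a ^ 2 + n3 * a ^ 3) * (b * (1 - b))
      - (n0 + n1 * b + n2 * b ^ 2 + n3 * b ^ 3) * (a * (1 - a))
      + (n0 + n1 + n2 + n3) * (a * b * (b - a)) := by
    ring
  have p1 : 0 < a * b * (1 - a) * (1 - b) * (b - a) := by
    have : 0 < 1 - a := by linarith
    have : 0 < 1 - b := by linarith
    have : 0 < b - a := by linarith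
    have : 0 < b := by linarith
    positivity
  have q1 : 0 < n3 * (a * b * (1 - a) * (1 - b) * (b - a)) := mul_pos h3 p1
  have q2 : 0 < n0 * ((1 - a) * (1 - b) * (b - a)) := by
    have : 0 < 1 - a := by linarith
    have : 0 < 1 - b := by linarith
    have : 0 < b - a := by linarith
    positivity
  have q3 : (n0 + n1 * a + n2 * a ^ 2 + n3 * a ^ 3) * (b * (1 - b)) ≤ 0 := by
    apply mul_nonpos_of_nonpos_of_nonneg hNa
    have : 0 < 1 - b := by linarith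
    have : 0 < b := by linarith
    positivity
  have q4 : 0 < (n0 + n1 * b + n2 * b ^ 2 + n3 * b ^ 3) * (a * (1 - a)) := by
    have : 0 < 1 - a := by linarith
    positivity
  have q5 : (n0 + n1 + n2 + n3) * (a * b * (b - a)) < 0 := by
    apply mul_neg_of_neg_of_pos h1
    have : 0 < b - a := by linarith
    have : 0 < b := by linarith
    positivity
  linarith

/-- The sign pattern. -/
theorem kap_pattern {A B x y : ℝ} (hx : 0 ≤ x) (hx1 : x < 1) (hy : 0 < y)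
    (hApos : 0 < A) (hAB : A * y < B * (1 - x)) (hnorm : x ^ 2 + y ^ 2 < 1)
    {a b : ℝ} (ha : 0 ≤ a) (hab : a < b) (hb : b < 1) (hka : kap A B x y a ≤ 0) :
    kap A B x y b ≤ 0 := by
  have hBpos : 0 < B := by
    have h1 : 0 < 1 - x := by linarith
    have h2 : 0 < B * (1 - x) := lt_trans (by positivity) hAB
    by_contra hcon
    push Not at hcon
    have := mul_nonpos_of_nonpos_of_nonneg hcon h1.le
    linarith
  have hAB2 : A * y < B * (1 - x ^ 2) := by nlinarith [mul_nonneg hx (mul_pos hBpos (sub_pos.2 hx1)).le]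
  have kap_eq : ∀ T, 0 ≤ T → kap A B x y T = NN A B x y T / (Nk 1 y T * Nk x y T) := by
    intro T hT
    have h1 := (Nk_pos (x := 1) zero_le_one hy hT).ne'
    have h2 := (Nk_pos hx hy hT).ne'
    unfold kap NN
    field_simp
  have hden : ∀ T, 0 ≤ T → 0 < Nk 1 y T * Nk x y T := fun T hT =>
    mul_pos (Nk_pos (x := 1) zero_le_one hy hT) (Nk_pos hx hy hT)
  have hNa : NN A B x y a ≤ 0 := by
    rw [kap_eq a ha] at hka
    by_contra hcon
    push Not at hcon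
    have := div_pos hcon (hden a ha)
    linarith
  have hb0 : 0 ≤ b := by linarith
  -- the cubic
  obtain ⟨n0, n1, n2, n3, hN⟩ : ∃ n0 n1 n2 n3 : ℝ, (∀ T, NN A B x y T =
      n0 + n1 * T + n2 * T ^ 2 + n3 * T ^ 3) ∧
      n0 = y * (x ^ 2 + y ^ 2) * (1 + y ^ 2) * (B * (1 - x ^ 2) - A * y * (x ^ 2 + y ^ 2)) ∧
      n3 = 3 * y * (B * (1 - x ^ 2) - A * y) := by
    refine ⟨y * (x ^ 2 + y ^ 2) * (1 + y ^ 2) * (B * (1 - x ^ 2) - A * y * (x ^ 2 + y ^ 2)),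
      ?n1, ?n2, 3 * y * (B * (1 - x ^ 2) - A * y), ?_, rfl, rfl⟩
    case n1 => exact
      (-(y * (3 * A * y + B * y ^ 2 - 2 * B))) * (x ^ 2 + y ^ 2) ^ 2
      + (y * (3 * A * y + B * y ^ 2 - 2 * B) - y ^ 2 * (y ^ 2 + 4) * (A + B * y))
        * (-(2 * (x ^ 2 - y ^ 2)))
      + B * y * ((x ^ 2 + y ^ 2) * (1 + x ^ 2 + y ^ 2)) * (-(2 * (1 - y ^ 2)))
      + B * y * (1 - 3 * x ^ 2 + y ^ 2) * (1 + y ^ 2) ^ 2
    case n2 => exact
      (-(y * (3 * A * y + B * y ^ 2 - 2 * B))) * (-(2 * (x ^ 2 - y ^ 2)))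
      + (y * (3 * A * y + B * y ^ 2 - 2 * B) - y ^ 2 * (y ^ 2 + 4) * (A + B * y))
      + B * y * ((x ^ 2 + y ^ 2) * (1 + x ^ 2 + y ^ 2))
      + B * y * (1 - 3 * x ^ 2 + y ^ 2) * (-(2 * (1 - y ^ 2)))
    intro T
    unfold NN R1 R2 Nk
    ring
  obtain ⟨hN, hn0, hn3⟩ := hN
  have h3 : 0 < n3 := by
    rw [hn3]
    have : 0 < B * (1 - x ^ 2) - A * y := by linarith
    positivity
  have h0 : 0 < n0 := by
    rw [hn0]
    have h1 : A * y * (x ^ 2 + y ^ 2) ≤ A * y := by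
      have : 0 < A * y := by positivity
      nlinarith
    have : 0 < B * (1 - x ^ 2) - A * y * (x ^ 2 + y ^ 2) := by linarith
    have : 0 < x ^ 2 + y ^ 2 := by positivity
    positivity
  have h1 : n0 + n1 + n2 + n3 < 0 := by
    have e1 := hN 1
    have e2 : NN A B x y 1 = -(A * y ^ 2 * (y ^ 2 + 4) * Nk x y 1) := by
      unfold NN R1 R2 Nk; ring
    have h4 : 0 < A * y ^ 2 * (y ^ 2 + 4) * Nk x y 1 := by
      have := Nk_pos hx hy (zero_le_one (α := ℝ))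
      positivity
    have e3 : n0 + n1 * 1 + n2 * 1 ^ 2 + n3 * 1 ^ 3 = n0 + n1 + n2 + n3 := by ring
    rw [e3] at e1
    linarith
  have hfin := cubic_pattern n0 n1 n2 n3 h3 h0 h1 ha hab hb (by rw [← hN]; exact hNa)
  rw [← hN] at hfin
  rw [kap_eq b hb0]
  exact div_nonpos_of_nonpos_of_nonneg hfin (hden b hb0).le

/-- Abel-type lemma: a sum with a sign pattern and monotone weights. -/
lemma weighted_pos (g κ β : Fin m → ℝ) (hg : ∀ j, 0 < g j)
    (hpat : ∀ j k, j < k → κ j ≤ 0 → κ k ≤ 0)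
    (htot : 0 < ∑ j, g j * κ j)
    (hβ0 : ∀ j, 0 ≤ β j) (hβ : ∀ j k, j < k → β k ≤ β j) (hne : ∃ j, 0 < β j) :
    0 < ∑ j, β j * (g j * κ j) := by
  classical
  by_cases hall : ∀ j, 0 < κ j
  · obtain ⟨j, hj⟩ := hne
    apply Finset.sum_pos'
    · intro i _
      exact mul_nonneg (hβ0 i) (mul_pos (hg i) (hall i)).le
    · exact ⟨j, mem_univ _, mul_pos hj (mul_pos (hg j) (hall j))⟩
  · push Not at hall
    -- minimal index with `κ ≤ 0`
    obtain ⟨j0, hj0, hmin⟩ : ∃ j0, κ j0 ≤ 0 ∧ ∀ j, j < j0 → 0 < κ j := by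
      have hne : (univ.filter (fun j => κ j ≤ 0)).Nonempty := by
        obtain ⟨j, hj⟩ := hall
        exact ⟨j, by simp [hj]⟩
      refine ⟨(univ.filter (fun j => κ j ≤ 0)).min' hne, ?_, ?_⟩
      · have := Finset.min'_mem _ hne
        simpa using this
      · intro j hj
        by_contra hcon
        push Not at hcon
        have : (univ.filter (fun j => κ j ≤ 0)).min' hne ≤ j :=
          Finset.min'_le _ _ (by simp [hcon])
        exact absurd hj (not_lt.2 this)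
    have hterm : ∀ j, β j0 * (g j * κ j) ≤ β j * (g j * κ j) := by
      intro j
      rcases lt_or_ge j j0 with h | h
      · have h1 := hmin j h
        exact mul_le_mul_of_nonneg_right (hβ j j0 h) (mul_pos (hg j) h1).le
      · have h1 : κ j ≤ 0 := by
          rcases h.eq_or_lt with h' | h'
          · rw [← h']; exact hj0
          · exact hpat j0 j h' hj0
        have h2 : β j ≤ β j0 := by
          rcases h.eq_or_lt with h' | h'
          · rw [← h']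
          · exact hβ j0 j h'
        exact mul_le_mul_of_nonpos_right h2 (mul_nonpos_of_nonneg_of_nonpos (hg j).le h1)
    rcases (hβ0 j0).eq_or_lt with h | h
    · -- `β j0 = 0`
      obtain ⟨j, hj⟩ := hne
      have hjlt : j < j0 := by
        by_contra hcon
        push Not at hcon
        rcases hcon.eq_or_lt with h' | h'
        · rw [← h'] at hj; linarith
        · have := hβ j0 j h'; linarith
      have h0 : ∀ i, 0 ≤ β i * (g i * κ i) := by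
        intro i
        have := hterm i
        rw [← h, zero_mul] at this
        exact this
      exact Finset.sum_pos' (fun i _ => h0 i)
        ⟨j, mem_univ _, mul_pos hj (mul_pos (hg j) (hmin j hjlt))⟩
    · have h1 : ∑ j, β j0 * (g j * κ j) ≤ ∑ j, β j * (g j * κ j) :=
        Finset.sum_le_sum (fun j _ => hterm j)
      rw [← Finset.mul_sum] at h1
      have := mul_pos h htot
      linarith

end Pool.Agent.H191.DS
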