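import Mathlib
import Pool.Agent.H191.DS.PartA

/-!
# The first variation in terms of the critical points
-/

namespace Pool.Agent.H191.DS

open Finset Polynomial

variable {m : ℕ}

/-- `∏ (X - s_k)`. -/
noncomputable def qS (s : Fin m → ℝ) : ℝ[X] := ∏ k, (X - C (s k))

/-- `e p + 2 X p'`; `x Q'(x) = x^e (DP e p)(x^2)` for `Q(x) = x^e p(x^2)`. -/
noncomputable def DP (e : ℕ) (p : ℝ[X]) : ℝ[X] := C (e : ℝ) * p + C 2 * X * derivative p

/-- Interpolation weights. -/
noncomputable def wj (s T : Fin m → ℝ) (j : Fin m) : ℝ :=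
  (qS s).eval (T j) / ((1 - T j) * ∏ i ∈ univ.erase j, (T j - T i))

/-- The polynomial of degree `≤ m`, vanishing at `1`, with values `β_j q(T_j)` at `T_j`. -/
noncomputable def rP (s T β : Fin m → ℝ) : ℝ[X] :=
  (1 - X) * ∑ j, C (β j * wj s T j) * ∏ i ∈ univ.erase j, (X - C (T i))

/-- Interlacing zeros and critical points. -/
structure Inter (e : ℕ) (s T : Fin m → ℝ) : Prop where
  T0 : ∀ j, 0 ≤ T j
  Ts : ∀ j, T j < s j
  sT : ∀ j k, j < k → s j < T k
  s1 : ∀ j, s j < 1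
  hD : DP e (qS s) = C ((e : ℝ) + 2 * m) * ∏ k, (X - C (T k))

namespace Inter

variable {e : ℕ} {s T : Fin m → ℝ}

lemma s0 (h : Inter e s T) (j : Fin m) : 0 < s j := lt_of_le_of_lt (h.T0 j) (h.Ts j)
lemma T1 (h : Inter e s T) (j : Fin m) : T j < 1 := (h.Ts j).trans (h.s1 j)
lemma TT (h : Inter e s T) {j k : Fin m} (hjk : j < k) : T j < T k :=
  (h.Ts j).trans (h.sT j k hjk)
lemma T_inj (h : Inter e s T) : Function.Injective T := by
  have : StrictMono T := fun j k hjk => h.TT hjk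
  exact this.injective

lemma prod_ne (h : Inter e s T) (j : Fin m) : ∏ i ∈ univ.erase j, (T j - T i) ≠ 0 := by
  rw [Finset.prod_ne_zero_iff]
  intro i hi
  have : i ≠ j := (Finset.mem_erase.1 hi).1
  intro h0
  exact this (h.T_inj (by linarith : T j = T i)).symm

lemma w_neg (h : Inter e s T) (j : Fin m) : wj s T j < 0 := by
  unfold wj
  have h1 : 0 < 1 - T j := sub_pos.2 (h.T1 j)
  have h2 : (qS s).eval (T j) * ∏ i ∈ univ.erase j, (T j - T i) < 0 := by
    unfold qS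
    rw [eval_prod, ← Finset.mul_prod_erase univ _ (mem_univ j), mul_assoc,
      ← Finset.prod_mul_distrib]
    simp only [eval_sub, eval_X, eval_C]
    apply mul_neg_of_neg_of_pos
    · linarith [h.Ts j]
    · apply Finset.prod_pos
      intro i hi
      have hij : i ≠ j := (Finset.mem_erase.1 hi).1
      rcases lt_or_gt_of_ne hij with hlt | hgt
      · have a1 := h.sT i j hlt
        have a2 := h.TT hlt
        exact mul_pos (by linarith) (by linarith)
      · have a1 := h.TT hgt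
        have a2 := h.Ts i
        exact mul_pos_of_neg_of_neg (by linarith) (by linarith)
  have h3 : (qS s).eval (T j) / ((1 - T j) * ∏ i ∈ univ.erase j, (T j - T i)) =
      ((qS s).eval (T j) * ∏ i ∈ univ.erase j, (T j - T i)) /
      ((1 - T j) * (∏ i ∈ univ.erase j, (T j - T i)) ^ 2) := by
    have := h.prod_ne j
    field_simp
  rw [h3]
  apply div_neg_of_neg_of_pos h2
  have := h.prod_ne j
  positivity

lemma eval_rP_T (h : Inter e s T) (β : Fin m → ℝ) (k : Fin m) :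
    (rP s T β).eval (T k) = β k * (qS s).eval (T k) := by
  unfold rP
  rw [eval_mul, eval_finsetSum]
  rw [Finset.sum_eq_single k]
  · rw [eval_mul, eval_C, eval_prod]
    simp only [eval_sub, eval_one, eval_X, eval_C]
    unfold wj
    have h1 : 1 - T k ≠ 0 := (sub_pos.2 (h.T1 k)).ne'
    have h2 := h.prod_ne k
    field_simp
  · intro j _ hjk
    rw [eval_mul, eval_prod]
    have : ∏ i ∈ univ.erase j, eval (T k) (X - C (T i)) = 0 := by
      apply Finset.prod_eq_zero (i := k)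
      · simp [hjk.symm]
      · simp
    rw [this, mul_zero]
  · intro hk
    exact absurd (mem_univ k) hk

lemma eval_rP_one (β : Fin m → ℝ) : (rP s T β).eval 1 = 0 := by
  unfold rP
  simp

lemma degree_rP (β : Fin m → ℝ) : (rP s T β).degree ≤ m := by
  unfold rP
  have h1 : ((1 : ℝ[X]) - X).degree ≤ 1 := by
    refine (degree_sub_le _ _).trans ?_
    simp
  rcases Nat.eq_zero_or_pos m with hm | hm
  · subst hm
    simp
  have h2 : (∑ j : Fin m, C (β j * wj s T j) * ∏ i ∈ univ.erase j, (X - C (T i))).degree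
      ≤ ((m - 1 : ℕ) : WithBot ℕ) := by
    refine (degree_sum_le _ _).trans ?_
    apply Finset.sup_le
    intro j _
    refine (degree_mul_le _ _).trans ?_
    have h3 : (C (β j * wj s T j)).degree ≤ 0 := degree_C_le
    have h4 : (∏ i ∈ univ.erase j, (X - C (T i))).degree = ((m - 1 : ℕ) : WithBot ℕ) := by
      rw [degree_prod]
      simp [Finset.card_erase_of_mem]
    rw [h4]
    calc (C (β j * wj s T j)).degree + ((m - 1 : ℕ) : WithBot ℕ)
        ≤ 0 + ((m - 1 : ℕ) : WithBot ℕ) := by gcongr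
      _ = _ := by simp
  refine (degree_mul_le _ _).trans ?_
  calc ((1 : ℝ[X]) - X).degree + _ ≤ 1 + ((m - 1 : ℕ) : WithBot ℕ) := by gcongr
    _ = ((1 + (m - 1) : ℕ) : WithBot ℕ) := by push_cast; rfl
    _ = (m : WithBot ℕ) := by congr 1; omega

lemma degree_qS : (qS s).degree = m := by
  unfold qS
  rw [degree_prod]; simp

lemma eval_DP_T (h : Inter e s T) (k : Fin m) : (DP e (qS s)).eval (T k) = 0 := by
  rw [h.hD, eval_mul, eval_prod]
  have : ∏ i, eval (T k) (X - C (T i)) = 0 :=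
    Finset.prod_eq_zero (mem_univ k) (by simp)
  rw [this, mul_zero]

lemma eval_qS_one_pos (h : Inter e s T) : 0 < (qS s).eval 1 := by
  unfold qS
  rw [eval_prod]
  apply Finset.prod_pos
  intro k _
  simpa using h.s1 k

lemma eval_DP_one_pos (h : Inter e s T) (hm : 0 < m) : 0 < (DP e (qS s)).eval 1 := by
  rw [h.hD, eval_mul, eval_prod, eval_C]
  apply mul_pos
  · have : (0:ℝ) < m := by exact_mod_cast hm
    positivity
  · apply Finset.prod_pos
    intro k _
    simpa using h.T1 k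

lemma degree_DP (h : Inter e s T) : (DP e (qS s)).degree ≤ m := by
  rw [h.hD]
  refine (degree_mul_le _ _).trans ?_
  have h4 : (∏ k, (X - C (T k))).degree = (m : WithBot ℕ) := by
    rw [degree_prod]; simp
  rw [h4]
  calc (C ((e : ℝ) + 2 * m)).degree + (m : WithBot ℕ) ≤ 0 + (m : WithBot ℕ) := by
        gcongr; exact degree_C_le
    _ = _ := by simp

/-- The constant direction. -/
lemma rP_one (h : Inter e s T) (hm : 0 < m) :
    rP s T (fun _ => 1) = qS s - C ((qS s).eval 1 / (DP e (qS s)).eval 1) * DP e (qS s) := by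
  classical
  apply eq_of_degrees_lt_of_eval_finset_eq (insert (1 : ℝ) (univ.image T))
  · rw [Finset.card_insert_of_notMem, Finset.card_image_of_injective _ h.T_inj]
    · refine lt_of_le_of_lt (degree_rP _) ?_
      simp only [card_univ, Fintype.card_fin]
      exact_mod_cast Nat.lt_succ_self m
    · simp only [mem_image, mem_univ, true_and, not_exists]
      intro j hj
      have := h.T1 j
      linarith
  · rw [Finset.card_insert_of_notMem, Finset.card_image_of_injective _ h.T_inj]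
    · refine lt_of_le_of_lt (degree_sub_le _ _) ?_
      rw [max_lt_iff]
      constructor
      · rw [degree_qS]
        simp only [card_univ, Fintype.card_fin]
        exact_mod_cast Nat.lt_succ_self m
      · refine lt_of_le_of_lt (degree_mul_le _ _) ?_
        calc (C ((qS s).eval 1 / (DP e (qS s)).eval 1)).degree + (DP e (qS s)).degree
            ≤ 0 + (m : WithBot ℕ) := by
              gcongr
              · exact degree_C_le
              · exact h.degree_DP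
          _ = (m : WithBot ℕ) := by simp
          _ < _ := by
            simp only [card_univ, Fintype.card_fin]
            exact_mod_cast Nat.lt_succ_self m
    · simp only [mem_image, mem_univ, true_and, not_exists]
      intro j hj
      have := h.T1 j
      linarith
  · intro x hx
    rw [Finset.mem_insert] at hx
    rcases hx with hx | hx
    · subst hx
      rw [eval_rP_one, eval_sub, eval_mul, eval_C]
      have := (h.eval_DP_one_pos hm).ne'
      field_simp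
      ring
    · simp only [mem_image, mem_univ, true_and] at hx
      obtain ⟨j, rfl⟩ := hx
      rw [h.eval_rP_T, eval_sub, eval_mul, h.eval_DP_T]
      ring

end Inter

open Complex

lemma normSq_sub_real (x y T : ℝ) : normSq ((⟨x, y⟩ : ℂ) ^ 2 - (T : ℂ)) = Nk x y T := by
  unfold Nk
  rw [normSq_apply]
  simp only [sub_re, sub_im, ofReal_re, ofReal_im, pow_two, mul_re, mul_im]
  ring

lemma sq_sub_ne {x y T : ℝ} (hx : 0 ≤ x) (hy : 0 < y) (hT : 0 ≤ T) :
    (⟨x, y⟩ : ℂ) ^ 2 - (T : ℂ) ≠ 0 := by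
  intro h
  have h1 := normSq_sub_real x y T
  rw [h, normSq_zero] at h1
  have := Nk_pos hx hy hT
  linarith

lemma aeval_qS (s : Fin m → ℝ) (Z : ℂ) : aeval Z (qS s) = ∏ k, (Z - (s k : ℂ)) := by
  unfold qS
  simp [map_prod]

lemma aeval_qS_ne {s : Fin m → ℝ} (hs : ∀ k, 0 ≤ s k) {x y : ℝ} (hx : 0 ≤ x) (hy : 0 < y) :
    aeval ((⟨x, y⟩ : ℂ) ^ 2) (qS s) ≠ 0 := by
  rw [aeval_qS, Finset.prod_ne_zero_iff]
  intro k _
  exact sq_sub_ne hx hy (hs k)

/-- `z Q'(z)/Q(z)` in terms of `A`, `B`. -/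
lemma aeval_DP_div {e : ℕ} {s : Fin m → ℝ} (hs : ∀ k, 0 ≤ s k) {x y : ℝ} (hx : 0 ≤ x)
    (hy : 0 < y) :
    aeval ((⟨x, y⟩ : ℂ) ^ 2) (DP e (qS s)) / aeval ((⟨x, y⟩ : ℂ) ^ 2) (qS s) =
      ⟨x, y⟩ * ⟨Aab e s x y, -Bab e s x y⟩ := by
  have hq := aeval_qS_ne hs hx hy
  set z : ℂ := ⟨x, y⟩ with hz
  have h1 : aeval (z ^ 2) (derivative (qS s)) =
      aeval (z ^ 2) (qS s) * ∑ k, (z ^ 2 - (s k : ℂ))⁻¹ := by
    unfold qS
    rw [derivative_prod_finset, map_sum, Finset.mul_sum]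
    apply Finset.sum_congr rfl
    intro k _
    rw [map_mul, map_prod, map_prod, ← Finset.mul_prod_erase univ _ (mem_univ k)]
    simp only [map_sub, aeval_X, aeval_C, derivative_X, derivative_C, sub_zero,
      map_one, mul_one, coe_algebraMap]
    have := sq_sub_ne hx hy (hs k)
    rw [← hz] at this
    field_simp
  have h2 : aeval (z ^ 2) (DP e (qS s)) / aeval (z ^ 2) (qS s) =
      (e : ℂ) + 2 * z ^ 2 * ∑ k, (z ^ 2 - (s k : ℂ))⁻¹ := by
    unfold DP
    rw [map_add, map_mul, map_mul, map_mul, h1]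
    simp only [aeval_C, aeval_X, coe_algebraMap]
    field_simp
    push_cast
    ring
  rw [h2]
  have hxy : 0 < x ^ 2 + y ^ 2 := by positivity
  -- zero term
  have h3 : (e : ℂ) = z * ⟨(e : ℝ) * x / (x ^ 2 + y ^ 2), -((e : ℝ) * y / (x ^ 2 + y ^ 2))⟩ := by
    apply Complex.ext
    · simp only [hz, mul_re, natCast_re]
      field_simp
      ring
    · simp only [hz, mul_im, natCast_im]
      field_simp
      ring
  have h4 : ∀ k, 2 * z ^ 2 * (z ^ 2 - (s k : ℂ))⁻¹ =
      z * ⟨2 * x * (x ^ 2 + y ^ 2 - s k) / Nk x y (s k),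
        -(2 * y * (x ^ 2 + y ^ 2 + s k) / Nk x y (s k))⟩ := by
    intro k
    have hN := Nk_pos hx hy (hs k)
    have hne := sq_sub_ne hx hy (hs k)
    rw [← hz] at hne
    rw [mul_inv_eq_iff_eq_mul₀ hne]
    have hNe : Nk x y (s k) = (x ^ 2 - y ^ 2 - s k) ^ 2 + 4 * x ^ 2 * y ^ 2 := rfl
    apply Complex.ext
    · simp only [hz, mul_re, mul_im, pow_two, sub_re, sub_im, ofReal_re, ofReal_im, re_ofNat,
        im_ofNat]
      field_simp
      rw [hNe]
      ring
    · simp only [hz, mul_re, mul_im, pow_two, sub_re, sub_im, ofReal_re, ofReal_im, re_ofNat,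
        im_ofNat]
      field_simp
      rw [hNe]
      ring
  rw [Finset.mul_sum]
  simp_rw [h4]
  rw [← Finset.mul_sum, h3, ← mul_add]
  congr 1
  apply Complex.ext
  · simp only [add_re, re_sum, Aab]
  · simp only [add_im, im_sum, Bab, Finset.sum_neg_distrib]
    ring

lemma aeval_rP_div {e : ℕ} {s T : Fin m → ℝ} (h : Inter e s T) (β : Fin m → ℝ)
    (hm : 0 < m) {x y : ℝ} (hx : 0 ≤ x) (hy : 0 < y) :
    aeval ((⟨x, y⟩ : ℂ) ^ 2) (rP s T β) / aeval ((⟨x, y⟩ : ℂ) ^ 2) (qS s) =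
      ∑ j, ((β j * wj s T j / ((e : ℝ) + 2 * m) : ℝ) : ℂ) *
        ((1 - (⟨x, y⟩ : ℂ) ^ 2) * (⟨x, y⟩ * ⟨Aab e s x y, -Bab e s x y⟩) /
          ((⟨x, y⟩ : ℂ) ^ 2 - (T j : ℂ))) := by
  have hs : ∀ k, 0 ≤ s k := fun k => (h.s0 k).le
  rw [← aeval_DP_div hs hx hy]
  have hq := aeval_qS_ne hs hx hy
  rw [h.hD]
  set z : ℂ := ⟨x, y⟩ with hz
  unfold rP
  rw [map_mul, map_sum, Finset.mul_sum, Finset.sum_div]
  apply Finset.sum_congr rfl
  intro j _
  have hne := sq_sub_ne hx hy (h.T0 j)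
  rw [← hz] at hne
  have hn : ((e : ℝ) + 2 * m : ℝ) ≠ 0 := by
    have : (0:ℝ) < m := by exact_mod_cast hm
    positivity
  have hn' : ((e : ℂ) + 2 * m : ℂ) ≠ 0 := by exact_mod_cast hn
  have e1 : aeval (z ^ 2) (C (β j * wj s T j) * ∏ i ∈ univ.erase j, (X - C (T i))) =
      ((β j * wj s T j : ℝ) : ℂ) * ∏ i ∈ univ.erase j, (z ^ 2 - (T i : ℂ)) := by
    simp [map_prod]
  have e2 : aeval (z ^ 2) (C ((e : ℝ) + 2 * m) * ∏ k, (X - C (T k))) =
      ((e : ℂ) + 2 * m) * ((z ^ 2 - (T j : ℂ)) * ∏ i ∈ univ.erase j, (z ^ 2 - (T i : ℂ))) := by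
    rw [map_mul, map_prod, ← Finset.mul_prod_erase univ _ (mem_univ j)]
    simp
  have e3 : aeval (z ^ 2) (1 - X : ℝ[X]) = 1 - z ^ 2 := by simp
  rw [e1, e2, e3]
  push_cast
  field_simp

lemma re_term_one (A B y T : ℝ) :
    ((1 - (⟨1, y⟩ : ℂ) ^ 2) * ((⟨1, y⟩ : ℂ) * (⟨A, -B⟩ : ℂ)) / ((⟨1, y⟩ : ℂ) ^ 2 - (T : ℂ))).re =
      R1 A B y T / Nk 1 y T := by
  rw [div_re, normSq_sub_real, ← add_div]
  congr 1
  unfold R1
  simp only [mul_re, mul_im, pow_two, sub_re, sub_im, ofReal_re, ofReal_im, one_re, one_im]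
  ring

lemma re_term_x (B x y T : ℝ) :
    ((1 - (⟨x, y⟩ : ℂ) ^ 2) * ((⟨x, y⟩ : ℂ) * (⟨0, -B⟩ : ℂ)) / ((⟨x, y⟩ : ℂ) ^ 2 - (T : ℂ))).re =
      R2 B x y T / Nk x y T := by
  rw [div_re, normSq_sub_real, ← add_div]
  congr 1
  unfold R2
  simp only [mul_re, mul_im, pow_two, sub_re, sub_im, ofReal_re, ofReal_im, one_re, one_im]
  ring

/-- first variation -/
noncomputable def Lam (s : Fin m → ℝ) (r : ℝ[X]) (x y : ℝ) : ℝ :=
  (aeval ((⟨1, y⟩ : ℂ) ^ 2) r / aeval ((⟨1, y⟩ : ℂ) ^ 2) (qS s)).re -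
  (aeval ((⟨x, y⟩ : ℂ) ^ 2) r / aeval ((⟨x, y⟩ : ℂ) ^ 2) (qS s)).re

lemma Lam_eq {e : ℕ} {s T : Fin m → ℝ} (h : Inter e s T) (β : Fin m → ℝ)
    (hm : 0 < m) {x y : ℝ} (hx : 0 ≤ x) (hy : 0 < y) (hA : Aab e s x y = 0)
    (hB : Bab e s x y = Bab e s 1 y) :
    Lam s (rP s T β) x y = ∑ j, (β j * wj s T j / ((e : ℝ) + 2 * m)) *
      kap (Aab e s 1 y) (Bab e s 1 y) x y (T j) := by
  unfold Lam
  rw [aeval_rP_div h β hm zero_le_one hy, aeval_rP_div h β hm hx hy, re_sum, re_sum,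
    ← Finset.sum_sub_distrib]
  apply Finset.sum_congr rfl
  intro j _
  rw [re_ofReal_mul, re_ofReal_mul, re_term_one, hA, hB, re_term_x, ← mul_sub]
  rfl

lemma Lam_one {e : ℕ} {s T : Fin m → ℝ} (h : Inter e s T)
    (hm : 0 < m) {x y : ℝ} (hx : 0 ≤ x) (hy : 0 < y) (hA : Aab e s x y = 0)
    (hB : Bab e s x y = Bab e s 1 y) :
    Lam s (rP s T (fun _ => 1)) x y =
      -((qS s).eval 1 / (DP e (qS s)).eval 1 * Aab e s 1 y) := by
  have hs : ∀ k, 0 ≤ s k := fun k => (h.s0 k).le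
  rw [h.rP_one hm]
  unfold Lam
  set c := (qS s).eval 1 / (DP e (qS s)).eval 1 with hc
  have e1 : ∀ u : ℝ, 0 ≤ u → aeval ((⟨u, y⟩ : ℂ) ^ 2) (qS s - C c * DP e (qS s)) /
      aeval ((⟨u, y⟩ : ℂ) ^ 2) (qS s) = 1 - (c : ℂ) * (⟨u, y⟩ * ⟨Aab e s u y, -Bab e s u y⟩) := by
    intro u hu
    have hq := aeval_qS_ne hs hu hy
    rw [← aeval_DP_div hs hu hy, map_sub, map_mul, aeval_C, coe_algebraMap]
    field_simp
  rw [e1 1 zero_le_one, e1 x hx, hA, hB]
  simp only [sub_re, one_re, re_ofReal_mul]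
  simp only [mul_re]
  ring

/-- **The first variation is negative** in every admissible direction. -/
theorem Lam_neg {e : ℕ} {s T : Fin m → ℝ} (h : Inter e s T) (β : Fin m → ℝ)
    (hm : 0 < m) {x y : ℝ} (hx : 0 ≤ x) (hx1 : x < 1) (hy : 0 < y) (hy1 : y < 1)
    (hA : Aab e s x y = 0) (hB : Bab e s x y = Bab e s 1 y)
    (hβ0 : ∀ j, 0 ≤ β j) (hβ : ∀ j k, j < k → β k ≤ β j) (hne : ∃ j, 0 < β j) :
    Lam s (rP s T β) x y < 0 := by
  have hs : ∀ k, 0 ≤ s k := fun k => (h.s0 k).le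
  have hApos := Aab_one_pos e s hm hs (fun k => (h.s1 k).le) hy
  have hAB := stat_ineq e s hm hs hx hx1 hy hA hB
  have hnorm := stat_norm e s hm hs h.s1 hx hy hy1 hA
  have hn : (0:ℝ) < (e : ℝ) + 2 * m := by
    have : (0:ℝ) < m := by exact_mod_cast hm
    positivity
  have htot : 0 < ∑ j, (-wj s T j / ((e : ℝ) + 2 * m)) *
      kap (Aab e s 1 y) (Bab e s 1 y) x y (T j) := by
    have h1 := Lam_one h hm hx hy hA hB
    rw [Lam_eq h _ hm hx hy hA hB] at h1
    have h2 : ∑ j, (-wj s T j / ((e : ℝ) + 2 * m)) *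
      kap (Aab e s 1 y) (Bab e s 1 y) x y (T j) = -∑ j, ((fun _ => (1:ℝ)) j * wj s T j /
        ((e : ℝ) + 2 * m)) * kap (Aab e s 1 y) (Bab e s 1 y) x y (T j) := by
      rw [← Finset.sum_neg_distrib]
      apply Finset.sum_congr rfl
      intro j _
      ring
    rw [h2, h1, neg_neg]
    have := h.eval_qS_one_pos
    have := h.eval_DP_one_pos hm
    positivity
  have hmain := weighted_pos (fun j => -wj s T j / ((e : ℝ) + 2 * m))
    (fun j => kap (Aab e s 1 y) (Bab e s 1 y) x y (T j)) β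
    (fun j => div_pos (neg_pos.2 (h.w_neg j)) hn)
    (fun j k hjk hj => kap_pattern hx hx1 hy hApos hAB hnorm (h.T0 j) (h.TT hjk) (h.T1 k) hj)
    htot hβ0 hβ hne
  rw [Lam_eq h _ hm hx hy hA hB]
  have h3 : ∑ j, (β j * wj s T j / ((e : ℝ) + 2 * m)) *
      kap (Aab e s 1 y) (Bab e s 1 y) x y (T j) = -∑ j, β j * (-wj s T j / ((e : ℝ) + 2 * m) *
      kap (Aab e s 1 y) (Bab e s 1 y) x y (T j)) := by
    rw [← Finset.sum_neg_distrib]
    apply Finset.sum_congr rfl
    intro j _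
    ring
  rw [h3]
  linarith

/-- Linearity in `β`. -/
lemma rP_sub (s T β γ : Fin m → ℝ) (η : ℝ) :
    rP s T (fun j => β j - η * γ j) = rP s T β - C η * rP s T γ := by
  unfold rP
  rw [← mul_assoc, mul_comm (C η) (1 - X), mul_assoc, ← mul_sub]
  congr 1
  rw [Finset.mul_sum, ← Finset.sum_sub_distrib]
  apply Finset.sum_congr rfl
  intro j _
  simp only [sub_mul, C_sub, C_mul]
  ring

lemma Lam_sub (s : Fin m → ℝ) (r r' : ℝ[X]) (η x y : ℝ) :
    Lam s (r - C η * r') x y = Lam s r x y - η * Lam s r' x y := by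
  unfold Lam
  simp only [map_sub, map_mul, aeval_C, coe_algebraMap, sub_div, sub_re, mul_div_assoc,
    re_ofReal_mul]
  ring

end Pool.Agent.H191.DS
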