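import Mathlib
import Pool.Agent.H191.DS.Variation

/-!
# Stationarity equations at a maximum of `|Q(x+iy)|²/|Q(1+iy)|²`
-/

namespace Pool.Agent.H191.DS

open Finset Polynomial

variable {m : ℕ}

/-- `|Q(x+iy)|²` for `Q(z) = z^e ∏ (z² - s_k)`. -/
noncomputable def Phi (e : ℕ) (s : Fin m → ℝ) (x y : ℝ) : ℝ :=
  (x ^ 2 + y ^ 2) ^ e * ∏ k, Nk x y (s k)

lemma Phi_pos {e : ℕ} {s : Fin m → ℝ} {x y : ℝ} (hx : 0 ≤ x) (hy : 0 < y)
    (hs : ∀ k, 0 ≤ s k) : 0 < Phi e s x y := by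
  unfold Phi
  apply mul_pos
  · positivity
  · exact Finset.prod_pos fun k _ => Nk_pos hx hy (hs k)

lemma log_Phi {e : ℕ} {s : Fin m → ℝ} {x y : ℝ} (hx : 0 ≤ x) (hy : 0 < y)
    (hs : ∀ k, 0 ≤ s k) : Real.log (Phi e s x y) =
      (e : ℝ) * Real.log (x ^ 2 + y ^ 2) + ∑ k, Real.log (Nk x y (s k)) := by
  unfold Phi
  rw [Real.log_mul, Real.log_pow, Real.log_prod]
  · intro k _
    exact (Nk_pos hx hy (hs k)).ne'
  · positivity
  · exact (Finset.prod_pos fun k _ => Nk_pos hx hy (hs k)).ne'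

lemma hasDerivAt_logx {e : ℕ} {s : Fin m → ℝ} {x y : ℝ} (hx : 0 ≤ x) (hy : 0 < y)
    (hs : ∀ k, 0 ≤ s k) :
    HasDerivAt (fun x => (e : ℝ) * Real.log (x ^ 2 + y ^ 2) + ∑ k, Real.log (Nk x y (s k)))
      (2 * Aab e s x y) x := by
  have h1 : HasDerivAt (fun x : ℝ => (e : ℝ) * Real.log (x ^ 2 + y ^ 2))
      ((e : ℝ) * ((2 * x) / (x ^ 2 + y ^ 2))) x := by
    have h0 : HasDerivAt (fun x : ℝ => x ^ 2 + y ^ 2) (2 * x) x := by
      have := (hasDerivAt_pow 2 x).add_const (y ^ 2)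
      simpa using this
    exact (h0.log (by positivity)).const_mul _
  have h2 : ∀ k ∈ (univ : Finset (Fin m)), HasDerivAt (fun x : ℝ => Real.log (Nk x y (s k)))
      ((4 * x * (x ^ 2 + y ^ 2 - s k)) / Nk x y (s k)) x := by
    intro k _
    have h0 : HasDerivAt (fun x : ℝ => Nk x y (s k)) (4 * x * (x ^ 2 + y ^ 2 - s k)) x := by
      unfold Nk
      have ha : HasDerivAt (fun x : ℝ => x ^ 2 - y ^ 2 - s k) (2 * x) x := by
        have := ((hasDerivAt_pow 2 x).sub_const (y ^ 2)).sub_const (s k)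
        simpa using this
      have hb := ha.pow 2
      have hc : HasDerivAt (fun x : ℝ => 4 * x ^ 2 * y ^ 2) (8 * x * y ^ 2) x := by
        have := ((hasDerivAt_pow 2 x).const_mul 4).mul_const (y ^ 2)
        refine this.congr_deriv ?_
        simp only [Nat.cast_ofNat, Nat.add_one_sub_one, pow_one]; ring
      refine (hb.fun_add hc).congr_deriv ?_
      simp; ring
    exact h0.log (Nk_pos hx hy (hs k)).ne'
  have h3 := h1.fun_add (HasDerivAt.fun_sum h2)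
  refine h3.congr_deriv ?_
  unfold Aab
  rw [mul_add, Finset.mul_sum]
  congr 1
  · ring
  · apply Finset.sum_congr rfl
    intro k _
    ring

lemma hasDerivAt_logy {e : ℕ} {s : Fin m → ℝ} {x y : ℝ} (hx : 0 ≤ x) (hy : 0 < y)
    (hs : ∀ k, 0 ≤ s k) :
    HasDerivAt (fun y => (e : ℝ) * Real.log (x ^ 2 + y ^ 2) + ∑ k, Real.log (Nk x y (s k)))
      (2 * Bab e s x y) y := by
  have h1 : HasDerivAt (fun y : ℝ => (e : ℝ) * Real.log (x ^ 2 + y ^ 2))
      ((e : ℝ) * ((2 * y) / (x ^ 2 + y ^ 2))) y := by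
    have h0 : HasDerivAt (fun y : ℝ => x ^ 2 + y ^ 2) (2 * y) y := by
      have := (hasDerivAt_pow 2 y).const_add (x ^ 2)
      simpa using this
    exact (h0.log (by positivity)).const_mul _
  have h2 : ∀ k ∈ (univ : Finset (Fin m)), HasDerivAt (fun y : ℝ => Real.log (Nk x y (s k)))
      ((4 * y * (x ^ 2 + y ^ 2 + s k)) / Nk x y (s k)) y := by
    intro k _
    have h0 : HasDerivAt (fun y : ℝ => Nk x y (s k)) (4 * y * (x ^ 2 + y ^ 2 + s k)) y := by
      unfold Nk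
      have ha : HasDerivAt (fun y : ℝ => x ^ 2 - y ^ 2 - s k) (-(2 * y)) y := by
        have := ((hasDerivAt_pow 2 y).const_sub (x ^ 2)).sub_const (s k)
        simpa using this
      have hb := ha.pow 2
      have hc : HasDerivAt (fun y : ℝ => 4 * x ^ 2 * y ^ 2) (8 * x ^ 2 * y) y := by
        have := (hasDerivAt_pow 2 y).const_mul (4 * x ^ 2)
        refine this.congr_deriv ?_
        simp only [Nat.cast_ofNat, Nat.add_one_sub_one, pow_one]; ring
      refine (hb.fun_add hc).congr_deriv ?_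
      simp; ring
    exact h0.log (Nk_pos hx hy (hs k)).ne'
  have h3 := h1.fun_add (HasDerivAt.fun_sum h2)
  refine h3.congr_deriv ?_
  unfold Bab
  rw [mul_add, Finset.mul_sum]
  congr 1
  · ring
  · apply Finset.sum_congr rfl
    intro k _
    ring

/-- Stationarity in `x`. -/
theorem stat_x {e : ℕ} {s : Fin m → ℝ} {x y : ℝ} (hx : 0 ≤ x) (hx1 : x < 1) (hy : 0 < y)
    (hs : ∀ k, 0 ≤ s k) (hmax : ∀ x', 0 ≤ x' → x' ≤ 1 → Phi e s x' y ≤ Phi e s x y) :
    Aab e s x y = 0 := by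
  rcases hx.eq_or_lt with h | h
  · subst h
    unfold Aab
    simp
  · have hd := hasDerivAt_logx (e := e) hx hy hs
    have hloc : IsLocalMax
        (fun x => (e : ℝ) * Real.log (x ^ 2 + y ^ 2) + ∑ k, Real.log (Nk x y (s k))) x := by
      filter_upwards [Ioo_mem_nhds h hx1] with x' hx'
      rw [← log_Phi hx'.1.le hy hs, ← log_Phi hx hy hs]
      exact Real.log_le_log (Phi_pos hx'.1.le hy hs) (hmax x' hx'.1.le hx'.2.le)
    have := hloc.hasDerivAt_eq_zero hd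
    linarith

/-- Stationarity in `y`. -/
theorem stat_y {e : ℕ} {s : Fin m → ℝ} {x y : ℝ} (hx : 0 ≤ x) (hy : 0 < y) (hy1 : y < 1)
    (hs : ∀ k, 0 ≤ s k) (hmax : ∀ y', 0 < y' → y' ≤ 1 →
      Phi e s x y' / Phi e s 1 y' ≤ Phi e s x y / Phi e s 1 y) :
    Bab e s x y = Bab e s 1 y := by
  have hd := (hasDerivAt_logy (e := e) hx hy hs).sub
    (hasDerivAt_logy (e := e) (x := 1) zero_le_one hy hs)
  have hloc : IsLocalMax
      ((fun y => (e : ℝ) * Real.log (x ^ 2 + y ^ 2) + ∑ k, Real.log (Nk x y (s k))) -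
      (fun y => (e : ℝ) * Real.log (1 ^ 2 + y ^ 2) + ∑ k, Real.log (Nk 1 y (s k)))) y := by
    filter_upwards [Ioo_mem_nhds hy hy1] with y' hy'
    simp only [Pi.sub_apply]
    rw [← log_Phi hx hy'.1 hs, ← log_Phi hx hy hs, ← log_Phi zero_le_one hy'.1 hs,
      ← log_Phi zero_le_one hy hs, ← Real.log_div, ← Real.log_div]
    · apply Real.log_le_log
      · exact div_pos (Phi_pos hx hy'.1 hs) (Phi_pos zero_le_one hy'.1 hs)
      · exact hmax y' hy'.1 hy'.2.le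
    · exact (Phi_pos hx hy hs).ne'
    · exact (Phi_pos zero_le_one hy hs).ne'
    · exact (Phi_pos hx hy'.1 hs).ne'
    · exact (Phi_pos zero_le_one hy'.1 hs).ne'
  have := hloc.hasDerivAt_eq_zero hd
  linarith

lemma Phi_eq_normSq (e : ℕ) (s : Fin m → ℝ) (x y : ℝ) :
    Phi e s x y = (x ^ 2 + y ^ 2) ^ e *
      Complex.normSq (aeval ((⟨x, y⟩ : ℂ) ^ 2) (qS s)) := by
  unfold Phi
  rw [aeval_qS, map_prod]
  congr 1
  apply Finset.prod_congr rfl
  intro k _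
  rw [normSq_sub_real]

/-- For `y ≥ 1` the domination is termwise. -/
lemma Phi_le_of_one_le {e : ℕ} {s : Fin m → ℝ} (hs1 : ∀ k, s k ≤ 1)
    {x y : ℝ} (hx : 0 ≤ x) (hx1 : x ≤ 1) (hy : 1 ≤ y) : Phi e s x y ≤ Phi e s 1 y := by
  unfold Phi
  have hN : ∀ k, 0 ≤ Nk x y (s k) := fun k => by unfold Nk; positivity
  apply mul_le_mul
  · apply pow_le_pow_left₀ (by positivity)
    nlinarith
  · apply Finset.prod_le_prod
    · intro k _; exact hN k
    · intro k _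
      have h1 := hs1 k
      have h2 : Nk 1 y (s k) - Nk x y (s k) =
        (1 - x ^ 2) * ((1 + x ^ 2) + 2 * (y ^ 2 - s k)) := by unfold Nk; ring
      have h3 : 0 ≤ 1 - x ^ 2 := by nlinarith
      have h4 : 0 ≤ (1 + x ^ 2) + 2 * (y ^ 2 - s k) := by nlinarith
      nlinarith [mul_nonneg h3 h4]
  · exact Finset.prod_nonneg fun k _ => hN k
  · positivity

/-- If the first variation is negative then a small step increases the ratio. -/
lemma ratio_increases {s s' : Fin m → ℝ} {e : ℕ} {r : ℝ[X]} {x y : ℝ}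
    (hs : ∀ k, 0 ≤ s k) (hs' : ∀ k, 0 ≤ s' k) (hx : 0 ≤ x) (hy : 0 < y) {ε lam : ℝ}
    (hε : 0 < ε) (hlam : 0 < lam) (hp : qS s + C ε * r = C lam * qS s')
    (hsmall : ε * Complex.normSq (aeval ((⟨1, y⟩ : ℂ) ^ 2) r / aeval ((⟨1, y⟩ : ℂ) ^ 2) (qS s)) <
      -2 * Lam s r x y) :
    Phi e s x y / Phi e s 1 y < Phi e s' x y / Phi e s' 1 y := by
  have key : ∀ u : ℝ, 0 ≤ u → Phi e s' u y = Phi e s u y *
      Complex.normSq (1 + (ε : ℂ) * (aeval ((⟨u, y⟩ : ℂ) ^ 2) r /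
        aeval ((⟨u, y⟩ : ℂ) ^ 2) (qS s))) / lam ^ 2 := by
    intro u hu
    have hq := aeval_qS_ne hs hu hy
    have h1 : aeval ((⟨u, y⟩ : ℂ) ^ 2) (qS s') = aeval ((⟨u, y⟩ : ℂ) ^ 2) (qS s) *
      (1 + (ε : ℂ) * (aeval ((⟨u, y⟩ : ℂ) ^ 2) r /
        aeval ((⟨u, y⟩ : ℂ) ^ 2) (qS s))) / (lam : ℂ) := by
      have h2 := congrArg (aeval ((⟨u, y⟩ : ℂ) ^ 2)) hp
      simp only [map_add, map_mul, aeval_C, Complex.coe_algebraMap] at h2
      have hl : (lam : ℂ) ≠ 0 := by exact_mod_cast hlam.ne'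
      field_simp
      rw [h2]
      ring
    rw [Phi_eq_normSq, Phi_eq_normSq, h1, Complex.normSq_div, Complex.normSq_mul,
      Complex.normSq_ofReal]
    field_simp
  rw [key x hx, key 1 zero_le_one]
  set u := aeval ((⟨x, y⟩ : ℂ) ^ 2) r / aeval ((⟨x, y⟩ : ℂ) ^ 2) (qS s) with hu
  set v := aeval ((⟨1, y⟩ : ℂ) ^ 2) r / aeval ((⟨1, y⟩ : ℂ) ^ 2) (qS s) with hv
  have hLam : Lam s r x y = v.re - u.re := rfl
  rw [hLam] at hsmall
  have e1 : ∀ w : ℂ, Complex.normSq (1 + (ε : ℂ) * w) =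
      1 + 2 * ε * w.re + ε ^ 2 * Complex.normSq w := by
    intro w
    simp only [Complex.normSq_apply, Complex.add_re, Complex.add_im, Complex.one_re,
      Complex.one_im, Complex.mul_re, Complex.mul_im, Complex.ofReal_re, Complex.ofReal_im]
    ring
  have hP := Phi_pos (e := e) hx hy hs
  have hP1 := Phi_pos (e := e) (x := 1) zero_le_one hy hs
  have hv0 : 0 < Phi e s' 1 y := Phi_pos zero_le_one hy hs'
  rw [key 1 zero_le_one, ← hv] at hv0
  have hvpos : 0 < Complex.normSq (1 + (ε : ℂ) * v) := by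
    by_contra hcon
    have h0 : Complex.normSq (1 + (ε : ℂ) * v) = 0 :=
      le_antisymm (not_lt.1 hcon) (Complex.normSq_nonneg _)
    rw [h0] at hv0
    simp at hv0
  have hlt : Complex.normSq (1 + (ε : ℂ) * v) < Complex.normSq (1 + (ε : ℂ) * u) := by
    rw [e1, e1]
    have h1 : 0 ≤ ε ^ 2 * Complex.normSq u := mul_nonneg (sq_nonneg _) (Complex.normSq_nonneg _)
    have h2 : ε * (ε * Complex.normSq v) < ε * (-2 * (v.re - u.re)) :=
      mul_lt_mul_of_pos_left hsmall hε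
    nlinarith
  rw [div_lt_div_iff₀ hP1 hv0]
  have h5 : Phi e s x y * (Phi e s 1 y * Complex.normSq (1 + (ε : ℂ) * v) / lam ^ 2) <
      Phi e s x y * (Phi e s 1 y * Complex.normSq (1 + (ε : ℂ) * u) / lam ^ 2) := by
    gcongr
  calc _ < _ := h5
    _ = _ := by ring

end Pool.Agent.H191.DS
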