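import Mathlib
import Pool.Agent.H191.DS.Stat

/-!
# The class of symmetric polynomials with monotone peaks
-/

namespace Pool.Agent.H191.DS

open Finset Polynomial Filter Topology

variable {m : ℕ}

/-- `Q(x) = x^e p(x²)`. -/
noncomputable def Qf (e : ℕ) (p : ℝ[X]) (x : ℝ) : ℝ := x ^ e * p.eval (x ^ 2)

lemma Qf_hasDerivAt (e : ℕ) (p : ℝ[X]) (x : ℝ) :
    HasDerivAt (Qf e p) ((e : ℝ) * x ^ (e - 1) * p.eval (x ^ 2) +
      x ^ e * ((derivative p).eval (x ^ 2) * (2 * x))) x := by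
  unfold Qf
  have h1 : HasDerivAt (fun x : ℝ => x ^ e) ((e : ℝ) * x ^ (e - 1)) x := hasDerivAt_pow e x
  have h2 : HasDerivAt (fun x : ℝ => x ^ 2) (2 * x) x := by
    have := hasDerivAt_pow 2 x
    simpa using this
  have h3 : HasDerivAt (fun x : ℝ => p.eval (x ^ 2)) ((derivative p).eval (x ^ 2) * (2 * x)) x := by
    have h := HasDerivAt.comp (h₂ := fun y : ℝ => p.eval y) x (p.hasDerivAt (x ^ 2)) h2
    exact h
  exact h1.fun_mul h3

lemma continuous_Qf (e : ℕ) (p : ℝ[X]) : Continuous (Qf e p) := by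
  unfold Qf
  fun_prop

lemma x_mul_deriv (e : ℕ) (p : ℝ[X]) (x : ℝ) :
    x * ((e : ℝ) * x ^ (e - 1) * p.eval (x ^ 2) +
      x ^ e * ((derivative p).eval (x ^ 2) * (2 * x))) = x ^ e * (DP e p).eval (x ^ 2) := by
  unfold DP
  simp only [eval_add, eval_mul, eval_C, eval_X]
  rcases Nat.eq_zero_or_pos e with h | h
  · subst h; simp; ring
  · obtain ⟨k, rfl⟩ := Nat.exists_eq_succ_of_ne_zero h.ne'
    simp only [Nat.succ_eq_add_one, Nat.add_sub_cancel]
    ring

lemma crit_of_isLocalMax {e : ℕ} {p : ℝ[X]} {t : ℝ} (ht : 0 < t)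
    (hloc : IsLocalMax (fun x => |Qf e p x|) t) (hne : Qf e p t ≠ 0) :
    (DP e p).eval (t ^ 2) = 0 := by
  have hloc2 : IsLocalMax (fun x => Qf e p x * Qf e p x) t := by
    filter_upwards [hloc] with x hx
    rw [← abs_mul_abs_self (Qf e p x), ← abs_mul_abs_self (Qf e p t)]
    exact mul_self_le_mul_self (abs_nonneg _) hx
  have hd := (Qf_hasDerivAt e p t).fun_mul (Qf_hasDerivAt e p t)
  have h0 := hloc2.hasDerivAt_eq_zero hd
  have h1 : ((e : ℝ) * t ^ (e - 1) * p.eval (t ^ 2) +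
      t ^ e * ((derivative p).eval (t ^ 2) * (2 * t))) = 0 := by
    have h2 : 2 * Qf e p t * ((e : ℝ) * t ^ (e - 1) * p.eval (t ^ 2) +
      t ^ e * ((derivative p).eval (t ^ 2) * (2 * t))) = 0 := by linarith
    rcases mul_eq_zero.1 h2 with h | h
    · exfalso; apply hne; linarith
    · exact h
  have h3 := x_mul_deriv e p t
  rw [h1, mul_zero] at h3
  rcases mul_eq_zero.1 h3.symm with h | h
  · exact absurd h (pow_pos ht e).ne'
  · exact h

/-- A polynomial of degree `≤ m` with `m` distinct roots. -/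
lemma eq_prod_of_roots {p : ℝ[X]} (hdeg : p.degree ≤ m) (v : Fin m → ℝ)
    (hv : Function.Injective v) (hroot : ∀ k, p.eval (v k) = 0) :
    p = C (p.coeff m) * ∏ k, (X - C (v k)) := by
  classical
  apply eq_of_degree_sub_lt_of_eval_finset_eq (univ.image v)
  · rw [Finset.card_image_of_injective _ hv, card_univ, Fintype.card_fin,
      degree_lt_iff_coeff_zero]
    intro k hk
    have hmonic : (∏ k, (X - C (v k))).Monic := monic_prod_of_monic _ _ fun i _ => monic_X_sub_C _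
    have hnat : (∏ k, (X - C (v k))).natDegree = m := by
      rw [natDegree_prod_of_monic _ _ fun i _ => monic_X_sub_C _]
      simp
    rw [coeff_sub, coeff_C_mul]
    rcases hk.eq_or_lt with h | h
    · rw [← h]
      have : (∏ k, (X - C (v k))).coeff m = 1 := by
        have := hmonic.coeff_natDegree
        rwa [hnat] at this
      rw [this]; ring
    · have h1 : p.coeff k = 0 := by
        apply coeff_eq_zero_of_degree_lt
        refine lt_of_le_of_lt hdeg ?_
        exact_mod_cast h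
      have h2 : (∏ k, (X - C (v k))).coeff k = 0 := by
        apply coeff_eq_zero_of_natDegree_lt
        rw [hnat]; exact h
      rw [h1, h2]; ring
  · intro x hx
    simp only [mem_image, mem_univ, true_and] at hx
    obtain ⟨k, rfl⟩ := hx
    rw [hroot k, eval_mul, eval_prod, Finset.prod_eq_zero (mem_univ k) (by simp), mul_zero]

lemma monic_qS (s : Fin m → ℝ) : (qS s).Monic :=
  monic_prod_of_monic _ _ fun _ _ => monic_X_sub_C _

lemma natDegree_qS (s : Fin m → ℝ) : (qS s).natDegree = m := by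
  unfold qS
  rw [natDegree_prod_of_monic _ _ fun i _ => monic_X_sub_C _]
  simp

lemma coeff_DP (e : ℕ) (s : Fin m → ℝ) : (DP e (qS s)).coeff m = (e : ℝ) + 2 * m := by
  unfold DP
  have h1 : (qS s).coeff m = 1 := by
    have := (monic_qS s).coeff_natDegree
    rwa [natDegree_qS] at this
  rw [coeff_add, coeff_C_mul, h1, mul_assoc, coeff_C_mul]
  rcases Nat.eq_zero_or_pos m with h | h
  · subst h
    simp
  · obtain ⟨k, rfl⟩ := Nat.exists_eq_succ_of_ne_zero h.ne'
    rw [coeff_X_mul, coeff_derivative, h1]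
    push_cast; ring

lemma degree_DP_le (e : ℕ) (p : ℝ[X]) (hp : p.degree ≤ m) : (DP e p).degree ≤ m := by
  unfold DP
  refine (degree_add_le _ _).trans ?_
  rw [max_le_iff]
  constructor
  · refine (degree_mul_le _ _).trans ?_
    calc (C (e : ℝ)).degree + p.degree ≤ 0 + (m : WithBot ℕ) := by
          gcongr; exact degree_C_le
      _ = m := by simp
  · rcases eq_or_ne (derivative p) 0 with h | h
    · rw [h]; simp
    · rw [degree_le_iff_coeff_zero]
      intro k hk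
      rw [mul_assoc, coeff_C_mul]
      rcases Nat.eq_zero_or_pos k with h0 | h0
      · subst h0; simp
      · obtain ⟨l, rfl⟩ := Nat.exists_eq_succ_of_ne_zero h0.ne'
        rw [coeff_X_mul, coeff_derivative]
        have : p.coeff (l + 1) = 0 := by
          apply coeff_eq_zero_of_degree_lt
          exact lt_of_le_of_lt hp hk
        rw [this]; ring

/-- The class. -/
structure Cls (e : ℕ) (μ : ℝ) (a t : Fin m → ℝ) : Prop where
  t0 : ∀ j, 0 ≤ t j
  ta : ∀ j, t j ≤ a j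
  lt' : ∀ j k, j < k → a j ≤ t k
  a1 : ∀ j, a j ≤ 1
  crit : ∀ j, (DP e (qS (fun k => a k ^ 2))).eval (t j ^ 2) = 0
  mono : ∀ j k, j < k → |Qf e (qS (fun k => a k ^ 2)) (t j)| ≤ |Qf e (qS (fun k => a k ^ 2)) (t k)|
  low : ∀ j, μ * Qf e (qS (fun k => a k ^ 2)) 1 ≤ |Qf e (qS (fun k => a k ^ 2)) (t j)|
  sup : ∀ x, 0 ≤ x → x ≤ 1 →
    |Qf e (qS (fun k => a k ^ 2)) x| ≤ Qf e (qS (fun k => a k ^ 2)) 1

lemma eval_qS (s : Fin m → ℝ) (x : ℝ) : (qS s).eval x = ∏ k, (x - s k) := by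
  unfold qS
  rw [eval_prod]; simp

lemma Qf_qS_eq_zero_iff {e : ℕ} {a : Fin m → ℝ} {x : ℝ} (ha : ∀ k, 0 ≤ a k) (hx : 0 < x) :
    Qf e (qS (fun k => a k ^ 2)) x = 0 ↔ ∃ k, x = a k := by
  unfold Qf
  rw [eval_qS, mul_eq_zero, Finset.prod_eq_zero_iff]
  constructor
  · rintro (h | ⟨k, _, h⟩)
    · exact absurd h (pow_pos hx e).ne'
    · refine ⟨k, ?_⟩
      have h2 : x ^ 2 = a k ^ 2 := by linarith
      exact (sq_eq_sq₀ hx.le (ha k)).1 h2
  · rintro ⟨k, h⟩
    right
    exact ⟨k, mem_univ k, by rw [h]; ring⟩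

lemma Qf_qS_at {e : ℕ} {a : Fin m → ℝ} (k : Fin m) :
    Qf e (qS (fun k => a k ^ 2)) (a k) = 0 := by
  unfold Qf
  rw [eval_qS, Finset.prod_eq_zero (mem_univ k) (by ring), mul_zero]

namespace Cls

variable {e : ℕ} {μ : ℝ} {a t : Fin m → ℝ}

lemma a0 (h : Cls e μ a t) (j : Fin m) : 0 ≤ a j := (h.t0 j).trans (h.ta j)

lemma one_pos (h : Cls e μ a t) : 0 < Qf e (qS (fun k => a k ^ 2)) 1 := by
  have hinf : (Set.Ioo (0 : ℝ) 1).Infinite := Set.Ioo_infinite zero_lt_one
  obtain ⟨x, hx, hxa⟩ := hinf.exists_notMem_finite (Set.finite_range a)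
  have h1 : Qf e (qS (fun k => a k ^ 2)) x ≠ 0 := by
    intro h0
    rw [Qf_qS_eq_zero_iff h.a0 hx.1] at h0
    obtain ⟨k, hk⟩ := h0
    exact hxa ⟨k, hk.symm⟩
  exact lt_of_lt_of_le (abs_pos.2 h1) (h.sup x hx.1.le hx.2.le)

lemma t_ne (h : Cls e μ a t) (hμ : 0 < μ) (j : Fin m) :
    Qf e (qS (fun k => a k ^ 2)) (t j) ≠ 0 := by
  have h1 := mul_pos hμ h.one_pos
  have h2 := h.low j
  exact abs_pos.1 (lt_of_lt_of_le h1 h2)

lemma t_lt_a (h : Cls e μ a t) (hμ : 0 < μ) (j : Fin m) : t j < a j := by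
  apply lt_of_le_of_ne (h.ta j)
  intro h0
  apply h.t_ne hμ j
  rw [h0]; exact Qf_qS_at j

lemma a_lt_t (h : Cls e μ a t) (hμ : 0 < μ) {j k : Fin m} (hjk : j < k) : a j < t k := by
  apply lt_of_le_of_ne (h.lt' j k hjk)
  intro h0
  apply h.t_ne hμ k
  rw [← h0]; exact Qf_qS_at j

lemma a_lt_one (h : Cls e μ a t) (j : Fin m) : a j < 1 := by
  apply lt_of_le_of_ne (h.a1 j)
  intro h0
  have := h.one_pos
  rw [← h0, Qf_qS_at j] at this
  exact lt_irrefl _ this

theorem inter (h : Cls e μ a t) (hμ : 0 < μ) :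
    Inter e (fun k => a k ^ 2) (fun k => t k ^ 2) := by
  have hTs : ∀ j, t j ^ 2 < a j ^ 2 := fun j => by
    have := h.t_lt_a hμ j
    have := h.t0 j
    nlinarith
  have hsT : ∀ j k, j < k → a j ^ 2 < t k ^ 2 := fun j k hjk => by
    have := h.a_lt_t hμ hjk
    have := h.a0 j
    nlinarith
  refine ⟨fun j => sq_nonneg _, hTs, hsT, fun j => ?_, ?_⟩
  · have := h.a_lt_one j
    have := h.a0 j
    nlinarith
  · rw [← coeff_DP e (fun k => a k ^ 2)]
    apply eq_prod_of_roots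
    · apply degree_DP_le
      rw [Inter.degree_qS]
    · have : StrictMono (fun k => t k ^ 2) := fun j k hjk => (hTs j).trans (hsT j k hjk)
      exact this.injective
    · exact h.crit

end Cls

end Pool.Agent.H191.DS
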