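import Mathlib
import Pool.Agent.H191.DS.Class

/-!
# Perturbation of the critical values
-/

namespace Pool.Agent.H191.DS

open Finset Polynomial Filter Topology

variable {m : ℕ}

lemma le_of_sq_le_sq' {x y : ℝ} (h : x ^ 2 ≤ y ^ 2) (hy : 0 ≤ y) : x ≤ y := by
  by_contra hcon
  push Not at hcon
  nlinarith

/-- A one-sided Danskin estimate. -/
lemma danskin {K : Set ℝ} (hK : IsCompact K) {f g : ℝ → ℝ} (hf : Continuous f)
    (hg : Continuous g) {t0 c : ℝ} (hmax : ∀ x ∈ K, x ≠ t0 → f x < f t0) (hc : g t0 < c) :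
    ∀ᶠ ε in 𝓝[>] (0 : ℝ), ∀ x ∈ K, f x + ε * g x ≤ f t0 + ε * c := by
  set K' := K ∩ {x | c ≤ g x} with hK'
  have hK'c : IsCompact K' := hK.inter_right (isClosed_le continuous_const hg)
  have hgood : ∀ ε > (0 : ℝ), ∀ x ∈ K, x ∉ K' → f x + ε * g x ≤ f t0 + ε * c := by
    intro ε hε x hx hxK'
    have h1 : g x < c := by
      by_contra hcon
      exact hxK' ⟨hx, not_lt.1 hcon⟩
    have h2 : f x ≤ f t0 := by
      by_cases h : x = t0
      · rw [h]
      · exact (hmax x hx h).le
    have := mul_lt_mul_of_pos_left h1 hε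
    linarith
  rcases K'.eq_empty_or_nonempty with hemp | hne
  · filter_upwards [self_mem_nhdsWithin] with ε hε x hx
    apply hgood ε hε x hx
    rw [hemp]; exact Set.notMem_empty x
  · obtain ⟨x1, hx1, hmax1⟩ := hK'c.exists_isMaxOn hne hf.continuousOn
    obtain ⟨x2, hx2, hmax2⟩ := hK'c.exists_isMaxOn hne hg.continuousOn
    have hx1t : x1 ≠ t0 := by
      intro h
      have : c ≤ g x1 := hx1.2
      rw [h] at this
      linarith
    have hd : 0 < f t0 - f x1 := sub_pos.2 (hmax x1 hx1.1 hx1t)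
    have hlim : Tendsto (fun ε : ℝ => ε * (g x2 - c)) (𝓝[>] (0 : ℝ)) (𝓝 0) := by
      have : Tendsto (fun ε : ℝ => ε * (g x2 - c)) (𝓝 (0 : ℝ)) (𝓝 (0 * (g x2 - c))) :=
        (continuous_id.mul continuous_const).tendsto 0
      rw [zero_mul] at this
      exact this.mono_left nhdsWithin_le_nhds
    filter_upwards [self_mem_nhdsWithin, hlim.eventually (gt_mem_nhds hd)] with ε hε hsmall x hx
    by_cases hxK' : x ∈ K'
    · have h1 : f x ≤ f x1 := hmax1 hxK'
      have h2 : g x ≤ g x2 := hmax2 hxK'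
      have h3 := mul_le_mul_of_nonneg_left h2 (le_of_lt hε)
      nlinarith
    · exact hgood ε hε x hx hxK'

/-- The sign of a polynomial with interlacing zeros on the `j`-th lobe. -/
noncomputable def sg (j : Fin m) : ℝ := ∏ k : Fin m, (if j ≤ k then (-1 : ℝ) else 1)

lemma abs_sg (j : Fin m) : |sg j| = 1 := by
  unfold sg
  rw [Finset.abs_prod]
  apply Finset.prod_eq_one
  intro k _
  split_ifs <;> simp

lemma sg_mul_prod_nonneg (j : Fin m) (v : Fin m → ℝ) (x : ℝ)
    (h1 : ∀ k, k < j → v k ≤ x) (h2 : ∀ k, j ≤ k → x ≤ v k) :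
    0 ≤ sg j * ∏ k, (x - v k) := by
  unfold sg
  rw [← Finset.prod_mul_distrib]
  apply Finset.prod_nonneg
  intro k _
  split_ifs with h
  · have := h2 k h; linarith
  · have := h1 k (not_le.1 h); linarith

lemma sg_mul_prod_pos (j : Fin m) (v : Fin m → ℝ) (x : ℝ)
    (h1 : ∀ k, k < j → v k < x) (h2 : ∀ k, j ≤ k → x < v k) :
    0 < sg j * ∏ k, (x - v k) := by
  unfold sg
  rw [← Finset.prod_mul_distrib]
  apply Finset.prod_pos
  intro k _
  split_ifs with h
  · have := h2 k h; linarith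
  · have := h1 k (not_le.1 h); linarith

lemma sg_mul_prod_neg (j : Fin m) (v : Fin m → ℝ) (x : ℝ)
    (h1 : ∀ k, k ≤ j → v k < x) (h2 : ∀ k, j < k → x < v k) :
    sg j * ∏ k, (x - v k) < 0 := by
  unfold sg
  rw [← Finset.prod_mul_distrib, ← Finset.mul_prod_erase univ _ (mem_univ j)]
  apply mul_neg_of_neg_of_pos
  · simp only [le_refl, if_true]
    have := h1 j le_rfl; linarith
  · apply Finset.prod_pos
    intro k hk
    have hkj : k ≠ j := (Finset.mem_erase.1 hk).1
    split_ifs with h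
    · have := h2 k (lt_of_le_of_ne h hkj.symm); linarith
    · have := h1 k (not_le.1 h).le; linarith

lemma exists_root {f : ℝ → ℝ} (hf : Continuous f) {a b : ℝ} (hab : a < b)
    (h : f a * f b < 0) : ∃ c, a < c ∧ c < b ∧ f c = 0 := by
  rcases mul_neg_iff.1 h with ⟨h1, h2⟩ | ⟨h1, h2⟩
  · obtain ⟨c, hc, hfc⟩ := intermediate_value_Ioo' hab.le hf.continuousOn ⟨h2, h1⟩
    exact ⟨c, hc.1, hc.2, hfc⟩
  · obtain ⟨c, hc, hfc⟩ := intermediate_value_Ioo hab.le hf.continuousOn ⟨h1, h2⟩
    exact ⟨c, hc.1, hc.2, hfc⟩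

/-- For each `j` a right end point where the sign has changed. -/
lemma exists_upper {e : ℕ} {s T : Fin m → ℝ} (h : Inter e s T) (j : Fin m) :
    ∃ U : ℝ, (U = 1 ∨ ∃ k, U = T k) ∧ T j < U ∧ U ≤ 1 ∧ (∀ k, j < k → U ≤ T k) ∧
      (qS s).eval (T j) * (qS s).eval U < 0 := by
  by_cases hj : (j : ℕ) + 1 < m
  · set k : Fin m := ⟨(j : ℕ) + 1, hj⟩ with hk
    have hjk : j < k := by rw [Fin.lt_def]; simp [hk]
    refine ⟨T k, Or.inr ⟨k, rfl⟩, h.TT hjk, (h.T1 k).le, ?_, ?_⟩
    · intro l hl
      have hkl : k ≤ l := by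
        rw [Fin.le_def]
        have : (j : ℕ) < l := hl
        simp [hk]; omega
      rcases hkl.eq_or_lt with h' | h'
      · rw [h']
      · exact (h.TT h').le
    · rw [eval_qS, eval_qS, ← Finset.prod_mul_distrib, ← Finset.mul_prod_erase univ _ (mem_univ j)]
      apply mul_neg_of_neg_of_pos
      · apply mul_neg_of_neg_of_pos
        · linarith [h.Ts j]
        · linarith [h.sT j k hjk]
      · apply Finset.prod_pos
        intro i hi
        have hij : i ≠ j := (Finset.mem_erase.1 hi).1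
        rcases lt_or_gt_of_ne hij with h' | h'
        · have a1 := h.sT i j h'
          have a2 := h.sT i k (h'.trans hjk)
          exact mul_pos (by linarith) (by linarith)
        · have hki : k ≤ i := by
            rw [Fin.le_def]
            have : (j : ℕ) < i := h'
            simp [hk]; omega
          have a1 := h.Ts i
          have a2 := h.TT h'
          have a3 : T k ≤ T i := by
            rcases hki.eq_or_lt with h'' | h''
            · rw [h'']
            · exact (h.TT h'').le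
          exact mul_pos_of_neg_of_neg (by linarith) (by linarith)
  · refine ⟨1, Or.inl rfl, h.T1 j, le_rfl, fun k hk => ?_, ?_⟩
    · exfalso
      have : (j : ℕ) < k := hk
      omega
    · apply mul_neg_of_neg_of_pos
      · rw [eval_qS, ← Finset.mul_prod_erase univ _ (mem_univ j)]
        apply mul_neg_of_neg_of_pos
        · linarith [h.Ts j]
        · apply Finset.prod_pos
          intro i hi
          have hij : i ≠ j := (Finset.mem_erase.1 hi).1
          rcases lt_or_gt_of_ne hij with h' | h'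
          · linarith [h.sT i j h']
          · exfalso
            have : (j : ℕ) < i := h'
            omega
      · exact h.eval_qS_one_pos

lemma Qf_add (e : ℕ) (p r : ℝ[X]) (ε x : ℝ) :
    Qf e (p + C ε * r) x = Qf e p x + ε * Qf e r x := by
  unfold Qf
  simp only [eval_add, eval_mul, eval_C]
  ring

lemma Qf_C_mul (e : ℕ) (p : ℝ[X]) (lam x : ℝ) : Qf e (C lam * p) x = lam * Qf e p x := by
  unfold Qf
  simp only [eval_mul, eval_C]
  ring

lemma DP_C_mul (e : ℕ) (p : ℝ[X]) (lam : ℝ) : DP e (C lam * p) = C lam * DP e p := by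
  unfold DP
  rw [derivative_C_mul]
  ring

/-- The lobe of the critical point `t j`. -/
def Kj (t : Fin m → ℝ) (j : Fin m) : Set ℝ :=
  {x | 0 ≤ x ∧ x ≤ 1 ∧ (∀ k, k < j → t k ≤ x) ∧ (∀ k, j < k → x ≤ t k)}

lemma isCompact_Kj (t : Fin m → ℝ) (j : Fin m) : IsCompact (Kj t j) := by
  have h1 : IsClosed (Kj t j) := by
    have : Kj t j = Set.Ici 0 ∩ Set.Iic 1 ∩ (⋂ k, ⋂ _ : k < j, Set.Ici (t k)) ∩
        (⋂ k, ⋂ _ : j < k, Set.Iic (t k)) := by
      ext x
      simp only [Kj, Set.mem_ofPred_eq, Set.mem_inter_iff, Set.mem_Ici, Set.mem_Iic,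
        Set.mem_iInter]
      tauto
    rw [this]
    refine ((isClosed_Ici.inter isClosed_Iic).inter ?_).inter ?_
    · exact isClosed_iInter fun k => isClosed_iInter fun _ => isClosed_Ici
    · exact isClosed_iInter fun k => isClosed_iInter fun _ => isClosed_Iic
  exact isCompact_Icc.of_isClosed_subset h1 (fun x hx => ⟨hx.1, hx.2.1⟩)

namespace Cls

variable {e : ℕ} {μ : ℝ} {a t : Fin m → ℝ}

lemma t_mem_Kj (h : Cls e μ a t) (j : Fin m) : t j ∈ Kj t j :=
  ⟨h.t0 j, (h.ta j).trans (h.a1 j), fun k hk => (h.ta k).trans (h.lt' k j hk),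
    fun k hk => (h.ta j).trans (h.lt' j k hk)⟩

lemma t_lt_t (h : Cls e μ a t) (hμ : 0 < μ) {j k : Fin m} (hjk : j < k) : t j < t k :=
  (h.t_lt_a hμ j).trans (h.a_lt_t hμ hjk)

lemma sg_t (h : Cls e μ a t) (hμ : 0 < μ) (j : Fin m) :
    sg j * Qf e (qS (fun k => a k ^ 2)) (t j) = |Qf e (qS (fun k => a k ^ 2)) (t j)| := by
  have h1 : 0 ≤ sg j * Qf e (qS (fun k => a k ^ 2)) (t j) := by
    unfold Qf
    rw [eval_qS]
    have h2 := sg_mul_prod_nonneg j (fun k => a k ^ 2) (t j ^ 2)
      (fun k hk => by have := h.a_lt_t hμ hk; have := h.a0 k; nlinarith)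
      (fun k hk => by
        have h3 : t j ≤ a k := by
          rcases hk.eq_or_lt with h' | h'
          · rw [← h']; exact h.ta j
          · exact (h.ta j).trans ((h.lt' j k h').trans (h.ta k))
        have := h.t0 j
        nlinarith)
    calc (0:ℝ) ≤ t j ^ e * (sg j * ∏ k, (t j ^ 2 - a k ^ 2)) :=
          mul_nonneg (pow_nonneg (h.t0 j) e) h2
      _ = _ := by ring
  rw [← abs_of_nonneg h1, abs_mul, abs_sg, one_mul]

lemma deriv_mul (h : Cls e μ a t) (hμ : 0 < μ) (hm : 0 < m) {u : ℝ} (hu : 0 < u) (j : Fin m) :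
    ∃ c : ℝ, 0 < c ∧ deriv (fun x => sg j * Qf e (qS (fun k => a k ^ 2)) x) u =
      c * (sg j * ∏ k, (u ^ 2 - t k ^ 2)) := by
  have hd := (Qf_hasDerivAt e (qS (fun k => a k ^ 2)) u).const_mul (sg j)
  have hx := x_mul_deriv e (qS (fun k => a k ^ 2)) u
  rw [(h.inter hμ).hD, eval_mul, eval_C, eval_prod] at hx
  refine ⟨u ^ e * ((e : ℝ) + 2 * m) / u, ?_, ?_⟩
  · have : (0:ℝ) < m := by exact_mod_cast hm
    positivity
  · rw [hd.deriv]
    simp only [eval_sub, eval_X, eval_C] at hx
    have h2 : (e : ℝ) * u ^ (e - 1) * (qS (fun k => a k ^ 2)).eval (u ^ 2) +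
      u ^ e * ((derivative (qS (fun k => a k ^ 2))).eval (u ^ 2) * (2 * u)) =
      (u ^ e * (((e : ℝ) + 2 * m) * ∏ k, (u ^ 2 - t k ^ 2))) / u := by
      rw [← hx]; field_simp
    rw [h2]
    ring

lemma lobe_strict (h : Cls e μ a t) (hμ : 0 < μ) (hm : 0 < m) (j : Fin m) :
    ∀ x ∈ Kj t j, x ≠ t j → sg j * Qf e (qS (fun k => a k ^ 2)) x <
      sg j * Qf e (qS (fun k => a k ^ 2)) (t j) := by
  intro x hx hne
  have hcont : Continuous (fun x => sg j * Qf e (qS (fun k => a k ^ 2)) x) :=
    continuous_const.mul (continuous_Qf _ _)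
  rcases lt_or_gt_of_ne hne with hlt | hgt
  · have hmono : StrictMonoOn (fun x => sg j * Qf e (qS (fun k => a k ^ 2)) x)
        (Set.Icc x (t j)) := by
      apply strictMonoOn_of_deriv_pos (convex_Icc _ _) hcont.continuousOn
      intro u hu
      rw [interior_Icc] at hu
      have hu0 : 0 < u := lt_of_le_of_lt hx.1 hu.1
      obtain ⟨c, hc, he⟩ := h.deriv_mul hμ hm hu0 j
      rw [he]
      apply mul_pos hc
      apply sg_mul_prod_pos
      · intro k hk
        have := hx.2.2.1 k hk
        have := h.t0 k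
        have : t k < u := by linarith [hu.1]
        nlinarith
      · intro k hk
        have h3 : t j ≤ t k := by
          rcases hk.eq_or_lt with h' | h'
          · rw [h']
          · exact (h.t_lt_t hμ h').le
        have : u < t k := by linarith [hu.2]
        nlinarith
    exact hmono (Set.left_mem_Icc.2 hlt.le) (Set.right_mem_Icc.2 hlt.le) hlt
  · have hanti : StrictAntiOn (fun x => sg j * Qf e (qS (fun k => a k ^ 2)) x)
        (Set.Icc (t j) x) := by
      apply strictAntiOn_of_deriv_neg (convex_Icc _ _) hcont.continuousOn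
      intro u hu
      rw [interior_Icc] at hu
      have hu0 : 0 < u := lt_of_le_of_lt (h.t0 j) hu.1
      obtain ⟨c, hc, he⟩ := h.deriv_mul hμ hm hu0 j
      rw [he]
      apply mul_neg_of_pos_of_neg hc
      apply sg_mul_prod_neg
      · intro k hk
        have h3 : t k ≤ t j := by
          rcases hk.eq_or_lt with h' | h'
          · rw [h']
          · exact (h.t_lt_t hμ h').le
        have := h.t0 k
        have : t k < u := by linarith [hu.1]
        nlinarith
      · intro k hk
        have := hx.2.2.2 k hk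
        have : u < t k := by linarith [hu.2]
        nlinarith
    exact hanti (Set.left_mem_Icc.2 hgt.le) (Set.right_mem_Icc.2 hgt.le) hgt

/-- Comparison of a perturbed lobe with a perturbed level. -/
lemma pair_eventually (h : Cls e μ a t) (hμ : 0 < μ) (hm : 0 < m) (β : Fin m → ℝ) (j : Fin m)
    (M' b' : ℝ) (hM : |Qf e (qS (fun k => a k ^ 2)) (t j)| < M' ∨
      (|Qf e (qS (fun k => a k ^ 2)) (t j)| = M' ∧
        |Qf e (qS (fun k => a k ^ 2)) (t j)| * β j < M' * b')) :
    ∀ᶠ ε in 𝓝[>] (0 : ℝ), ∀ x ∈ Kj t j,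
      sg j * Qf e (qS (fun k => a k ^ 2) + C ε * rP (fun k => a k ^ 2) (fun k => t k ^ 2) β) x ≤
        M' + ε * (M' * b') := by
  set q := qS (fun k => a k ^ 2) with hq
  set r := rP (fun k => a k ^ 2) (fun k => t k ^ 2) β with hr
  have hI := h.inter hμ
  have hft : sg j * Qf e q (t j) = |Qf e q (t j)| := h.sg_t hμ j
  have hgt : sg j * Qf e r (t j) = |Qf e q (t j)| * β j := by
    have h1 := hI.eval_rP_T β j
    unfold Qf
    rw [← hr] at h1
    rw [h1, ← hq]
    have : sg j * (t j ^ e * (β j * q.eval (t j ^ 2))) =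
      (sg j * Qf e q (t j)) * β j := by unfold Qf; ring
    rw [this, hft]
    rfl
  have hfc : Continuous (fun x => sg j * Qf e q x) := continuous_const.mul (continuous_Qf _ _)
  have hgc : Continuous (fun x => sg j * Qf e r x) := continuous_const.mul (continuous_Qf _ _)
  have hmax := h.lobe_strict hμ hm j
  rw [← hq] at hmax
  rcases hM with hM | ⟨hM, hM2⟩
  · have hD := danskin (isCompact_Kj t j) hfc hgc hmax
      (show sg j * Qf e r (t j) < |Qf e q (t j)| * β j + 1 by rw [hgt]; linarith)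
    have hlim : Tendsto (fun ε : ℝ => ε * ((|Qf e q (t j)| * β j + 1) - M' * b')) (𝓝[>] (0 : ℝ))
        (𝓝 0) := by
      have : Tendsto (fun ε : ℝ => ε * ((|Qf e q (t j)| * β j + 1) - M' * b')) (𝓝 (0 : ℝ))
          (𝓝 (0 * ((|Qf e q (t j)| * β j + 1) - M' * b'))) :=
        (continuous_id.mul continuous_const).tendsto 0
      rw [zero_mul] at this
      exact this.mono_left nhdsWithin_le_nhds
    filter_upwards [hD, hlim.eventually (gt_mem_nhds (sub_pos.2 hM))] with ε h1 h2 x hx
    rw [Qf_add]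
    have h3 := h1 x hx
    rw [hft] at h3
    have h4 : sg j * (Qf e q x + ε * Qf e r x) = sg j * Qf e q x + ε * (sg j * Qf e r x) := by
      ring
    rw [h4]
    linarith
  · have hD := danskin (isCompact_Kj t j) hfc hgc hmax
      (show sg j * Qf e r (t j) < M' * b' by rw [hgt]; exact hM2)
    filter_upwards [hD] with ε h1 x hx
    rw [Qf_add]
    have h3 := h1 x hx
    rw [hft, hM] at h3
    have h4 : sg j * (Qf e q x + ε * Qf e r x) = sg j * Qf e q x + ε * (sg j * Qf e r x) := by
      ring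
    rw [h4]
    exact h3

end Cls

/-- The lobes of `q` delimited by its zeros. -/
def Lj (a : Fin m → ℝ) (j : Fin m) : Set ℝ :=
  {x | 0 ≤ x ∧ (∀ k, k < j → a k ≤ x) ∧ x ≤ a j}

lemma isCompact_Lj (a : Fin m → ℝ) (j : Fin m) : IsCompact (Lj a j) := by
  have h1 : IsClosed (Lj a j) := by
    have : Lj a j = Set.Ici 0 ∩ (⋂ k, ⋂ _ : k < j, Set.Ici (a k)) ∩ Set.Iic (a j) := by
      ext x
      simp only [Lj, Set.mem_ofPred_eq, Set.mem_inter_iff, Set.mem_Ici, Set.mem_Iic,
        Set.mem_iInter]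
      tauto
    rw [this]
    refine (isClosed_Ici.inter ?_).inter isClosed_Iic
    exact isClosed_iInter fun k => isClosed_iInter fun _ => isClosed_Ici
  exact (isCompact_Icc (a := (0:ℝ)) (b := a j)).of_isClosed_subset h1
    (fun x hx => ⟨hx.1, hx.2.2⟩)

/-- A maximiser of `|Q|` on a lobe is a critical point. -/
lemma crit_of_argmax {e : ℕ} {p : ℝ[X]} {a : Fin m → ℝ} {j : Fin m} {t' : ℝ}
    (hroot : ∀ k, p.eval (a k ^ 2) = 0) (ht : t' ∈ Lj a j)
    (hmax : ∀ x ∈ Lj a j, |Qf e p x| ≤ |Qf e p t'|) (hne : Qf e p t' ≠ 0) :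
    (DP e p).eval (t' ^ 2) = 0 := by
  have hra : ∀ k, t' ≠ a k := by
    intro k hk
    apply hne
    unfold Qf
    rw [hk, hroot k, mul_zero]
  rcases ht.1.eq_or_lt with h0 | h0
  · -- `t' = 0`
    rw [← h0] at hne ⊢
    have he : e = 0 := by
      by_contra he
      apply hne
      unfold Qf
      rw [zero_pow he, zero_mul]
    subst he
    unfold DP
    simp
  · apply crit_of_isLocalMax h0 _ hne
    have h1 : ∀ᶠ x in 𝓝 t', ∀ k, k < j → a k ≤ x := by
      rw [eventually_all]
      intro k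
      by_cases hk : k < j
      · have : a k < t' := lt_of_le_of_ne (ht.2.1 k hk) (hra k).symm
        filter_upwards [lt_mem_nhds this] with x hx _
        exact le_of_lt hx
      · filter_upwards with x h
        exact absurd h hk
    have h2 : t' < a j := lt_of_le_of_ne ht.2.2 (hra j)
    filter_upwards [h1, lt_mem_nhds h0, gt_mem_nhds h2] with x hx1 hx2 hx3
    exact hmax x ⟨le_of_lt hx2, hx1, le_of_lt hx3⟩

/-- Class membership from lobe maximisers. -/
lemma cls_of_argmax {e : ℕ} {μ : ℝ} {a t : Fin m → ℝ} {q : ℝ[X]}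
    (hq : q = qS (fun k => a k ^ 2)) (ha1 : ∀ j, a j ≤ 1)
    (ht : ∀ j, t j ∈ Lj a j) (hmax : ∀ j, ∀ x ∈ Lj a j, |Qf e q x| ≤ |Qf e q (t j)|)
    (hne : ∀ j, Qf e q (t j) ≠ 0)
    (hmono : ∀ j k, j < k → |Qf e q (t j)| ≤ |Qf e q (t k)|)
    (hlow : ∀ j, μ * Qf e q 1 ≤ |Qf e q (t j)|)
    (htop : ∀ j, |Qf e q (t j)| ≤ Qf e q 1) : Cls e μ a t := by
  have ha0 : ∀ j, 0 ≤ a j := fun j => (ht j).1.trans (ht j).2.2
  subst hq
  refine ⟨fun j => (ht j).1, fun j => (ht j).2.2, fun j k hjk => (ht k).2.1 j hjk, ha1, ?_,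
    hmono, hlow, ?_⟩
  · intro j
    apply crit_of_argmax (a := a) _ (ht j) (hmax j) (hne j)
    intro k
    rw [eval_qS, Finset.prod_eq_zero (mem_univ k) (sub_self _)]
  · intro x hx0 hx1
    by_cases hex : ∃ j, x ≤ a j
    · -- minimal such `j`
      classical
      have hne' : (univ.filter (fun j => x ≤ a j)).Nonempty := by
        obtain ⟨j, hj⟩ := hex
        exact ⟨j, by simp [hj]⟩
      set j0 := (univ.filter (fun j => x ≤ a j)).min' hne' with hj0
      have hj0m : x ≤ a j0 := by
        have := Finset.min'_mem _ hne'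
        simpa using this
      have hxL : x ∈ Lj a j0 := by
        refine ⟨hx0, fun k hk => ?_, hj0m⟩
        by_contra hcon
        push Not at hcon
        have : j0 ≤ k := Finset.min'_le _ _ (by simp [hcon.le])
        exact absurd hk (not_lt.2 this)
      exact (hmax j0 x hxL).trans (htop j0)
    · push Not at hex
      unfold Qf
      rw [eval_qS, eval_qS, one_pow, one_mul]
      have h1 : 0 ≤ ∏ k, (x ^ 2 - a k ^ 2) := by
        apply Finset.prod_nonneg
        intro k _
        have := hex k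
        have := ha0 k
        nlinarith
      rw [abs_of_nonneg (mul_nonneg (pow_nonneg hx0 e) h1)]
      calc x ^ e * ∏ k, (x ^ 2 - a k ^ 2) ≤ 1 * ∏ k, (x ^ 2 - a k ^ 2) := by
            gcongr
            exact pow_le_one₀ hx0 hx1
        _ = ∏ k, (x ^ 2 - a k ^ 2) := one_mul _
        _ ≤ ∏ k, (1 ^ 2 - a k ^ 2) := by
            apply Finset.prod_le_prod
            · intro k _
              have := hex k
              have := ha0 k
              nlinarith
            · intro k _
              nlinarith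
        _ = _ := by norm_num

theorem perturb {e : ℕ} {μ : ℝ} {a t : Fin m → ℝ} (h : Cls e μ a t) (hμ : 0 < μ) (hμ1 : μ < 1)
    (hm : 0 < m) (β : Fin m → ℝ)
    (hβ1 : ∀ j k, j < k → |Qf e (qS (fun k => a k ^ 2)) (t j)| =
      |Qf e (qS (fun k => a k ^ 2)) (t k)| → β j < β k)
    (hβ2 : ∀ j, |Qf e (qS (fun k => a k ^ 2)) (t j)| = Qf e (qS (fun k => a k ^ 2)) 1 → β j < 0)
    (hβ3 : ∀ j, |Qf e (qS (fun k => a k ^ 2)) (t j)| < Qf e (qS (fun k => a k ^ 2)) 1 → 0 < β j) :
    ∀ᶠ ε in 𝓝[>] (0 : ℝ), ∃ (a' t' : Fin m → ℝ) (lam : ℝ), 0 < lam ∧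
      qS (fun k => a k ^ 2) + C ε * rP (fun k => a k ^ 2) (fun k => t k ^ 2) β =
        C lam * qS (fun k => a' k ^ 2) ∧ Cls e μ a' t' := by
  classical
  set q := qS (fun k => a k ^ 2) with hq
  set r := rP (fun k => a k ^ 2) (fun k => t k ^ 2) β with hr
  have hI := h.inter hμ
  have hone := h.one_pos
  rw [← hq] at hone
  -- eventual facts
  have hlin : ∀ c : ℝ, Tendsto (fun ε : ℝ => ε * c) (𝓝[>] (0 : ℝ)) (𝓝 0) := by
    intro c
    have : Tendsto (fun ε : ℝ => ε * c) (𝓝 (0 : ℝ)) (𝓝 (0 * c)) :=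
      (continuous_id.mul continuous_const).tendsto 0
    rw [zero_mul] at this
    exact this.mono_left nhdsWithin_le_nhds
  have E1 : ∀ᶠ ε in 𝓝[>] (0 : ℝ), ∀ j, -1 < ε * β j := by
    rw [eventually_all]
    intro j
    exact (hlin (β j)).eventually (lt_mem_nhds (by norm_num))
  have hMpos : ∀ j, 0 < |Qf e q (t j)| := fun j => abs_pos.2 (h.t_ne hμ j)
  have E2 : ∀ᶠ ε in 𝓝[>] (0 : ℝ), ∀ j k, j < k → ∀ x ∈ Kj t j, sg j * Qf e (q + C ε * r) x ≤
      |Qf e q (t k)| + ε * (|Qf e q (t k)| * β k) := by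
    rw [eventually_all]; intro j
    rw [eventually_all]; intro k
    by_cases hjk : j < k
    · have hcase : |Qf e q (t j)| < |Qf e q (t k)| ∨ (|Qf e q (t j)| = |Qf e q (t k)| ∧
          |Qf e q (t j)| * β j < |Qf e q (t k)| * β k) := by
        rcases (h.mono j k hjk).lt_or_eq with h' | h'
        · left; exact h'
        · right
          refine ⟨h', ?_⟩
          have := hβ1 j k hjk h'
          rw [h']
          exact mul_lt_mul_of_pos_left this (hMpos k)
      filter_upwards [h.pair_eventually hμ hm β j _ _ hcase] with ε h1 _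
      exact h1
    · filter_upwards with ε h'
      exact absurd h' hjk
  have E3 : ∀ᶠ ε in 𝓝[>] (0 : ℝ), ∀ j, ∀ x ∈ Kj t j, sg j * Qf e (q + C ε * r) x ≤
      Qf e q 1 := by
    rw [eventually_all]; intro j
    have hsup := h.sup (t j) (h.t0 j) ((h.ta j).trans (h.a1 j))
    have hcase : |Qf e q (t j)| < Qf e q 1 ∨ (|Qf e q (t j)| = Qf e q 1 ∧
        |Qf e q (t j)| * β j < Qf e q 1 * 0) := by
      rcases hsup.lt_or_eq with h' | h'
      · left; exact h'
      · right
        refine ⟨h', ?_⟩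
        rw [mul_zero]
        exact mul_neg_of_pos_of_neg (hMpos j) (hβ2 j h')
    filter_upwards [h.pair_eventually hμ hm β j _ _ hcase] with ε h1 x hx
    have := h1 x hx
    rw [mul_zero, mul_zero, add_zero] at this
    exact this
  have E4 : ∀ᶠ ε in 𝓝[>] (0 : ℝ), ∀ j, μ * Qf e q 1 ≤ |Qf e q (t j)| * (1 + ε * β j) := by
    rw [eventually_all]; intro j
    have hsup := h.sup (t j) (h.t0 j) ((h.ta j).trans (h.a1 j))
    rcases hsup.lt_or_eq with h' | h'
    · have hb := hβ3 j h'
      filter_upwards [self_mem_nhdsWithin] with ε hε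
      have h1 := h.low j
      rw [← hq] at h1
      have h2 : 0 < ε * β j := mul_pos hε hb
      nlinarith [hMpos j, mul_pos (hMpos j) h2]
    · have hlt : 0 < (1 - μ) * Qf e q 1 := mul_pos (by linarith) hone
      have h1 := (hlin (-(Qf e q 1 * β j))).eventually (gt_mem_nhds hlt)
      filter_upwards [h1] with ε hε
      rw [h']
      nlinarith
  filter_upwards [E1, E2, E3, E4, self_mem_nhdsWithin] with ε h1 h2 h3 h4 hε
  have hε0 : (0:ℝ) < ε := hε
  set p := q + C ε * r with hp
  -- values of `p`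
  have hpT : ∀ j, p.eval (t j ^ 2) = q.eval (t j ^ 2) * (1 + ε * β j) := by
    intro j
    have := hI.eval_rP_T β j
    rw [← hr, ← hq] at this
    rw [hp, eval_add, eval_mul, eval_C, this]
    ring
  have hp1 : p.eval 1 = q.eval 1 := by
    rw [hp, eval_add, eval_mul, eval_C, hr, Inter.eval_rP_one]
    ring
  have hpdeg : p.degree ≤ m := by
    rw [hp]
    refine (degree_add_le _ _).trans ?_
    rw [max_le_iff]
    constructor
    · rw [hq, Inter.degree_qS]
    · refine (degree_mul_le _ _).trans ?_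
      calc (C ε).degree + r.degree ≤ 0 + (m : WithBot ℕ) := by
            gcongr
            · exact degree_C_le
            · exact Inter.degree_rP β
        _ = m := by simp
  -- new zeros
  have hroots : ∀ j, ∃ s' : ℝ, t j ^ 2 < s' ∧ s' < 1 ∧ (∀ k, j < k → s' < t k ^ 2) ∧
      p.eval s' = 0 := by
    intro j
    obtain ⟨U, hU, hjU, hU1, hUk, hsign⟩ := exists_upper hI j
    rw [← hq] at hsign
    have hc : ∃ c : ℝ, 0 < c ∧ p.eval (t j ^ 2) * p.eval U = c * (q.eval (t j ^ 2) * q.eval U) := by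
      have a1 := h1 j
      rcases hU with rfl | ⟨k, rfl⟩
      · refine ⟨1 + ε * β j, by linarith, ?_⟩
        rw [hpT, hp1]; ring
      · have a2 := h1 k
        refine ⟨(1 + ε * β j) * (1 + ε * β k), mul_pos (by linarith) (by linarith), ?_⟩
        rw [hpT]
        have := hpT k
        rw [this]; ring
    obtain ⟨c, hc0, hc⟩ := hc
    have hneg : p.eval (t j ^ 2) * p.eval U < 0 := by
      rw [hc]; exact mul_neg_of_pos_of_neg hc0 hsign
    obtain ⟨s', hs1, hs2, hs3⟩ := exists_root p.continuous hjU hneg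
    exact ⟨s', hs1, by linarith, fun k hk => lt_of_lt_of_le hs2 (hUk k hk), hs3⟩
  choose s' hs1 hs2 hs3 hs4 using hroots
  have hs'0 : ∀ j, 0 < s' j := fun j => lt_of_le_of_lt (sq_nonneg (t j)) (hs1 j)
  have hs'mono : StrictMono s' := fun j k hjk => (hs3 j k hjk).trans (hs1 k)
  have hfac := eq_prod_of_roots hpdeg s' hs'mono.injective hs4
  set lam := p.coeff m with hlam
  have hqS' : (∏ k, (X - C (s' k))) = qS s' := rfl
  rw [hqS'] at hfac
  have hlampos : 0 < lam := by
    have e1 : p.eval 1 = lam * (qS s').eval 1 := by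
      conv_lhs => rw [hfac]
      rw [eval_mul, eval_C]
    have e2 : 0 < (qS s').eval 1 := by
      rw [eval_qS]
      exact Finset.prod_pos fun k _ => by linarith [hs2 k]
    have e3 : 0 < p.eval 1 := by
      rw [hp1]
      exact hI.eval_qS_one_pos
    rw [e1] at e3
    by_contra hcon
    push Not at hcon
    have := mul_nonpos_of_nonpos_of_nonneg hcon e2.le
    linarith
  set a' : Fin m → ℝ := fun k => Real.sqrt (s' k) with ha'
  have ha'sq : (fun k => a' k ^ 2) = s' := by
    funext k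
    exact Real.sq_sqrt (hs'0 k).le
  have ha'sq' : ∀ k, a' k ^ 2 = s' k := fun k => congrFun ha'sq k
  have ha'0 : ∀ k, 0 ≤ a' k := fun k => Real.sqrt_nonneg _
  have hpq' : ∀ x, Qf e p x = lam * Qf e (qS s') x := by
    intro x
    conv_lhs => rw [hfac]
    rw [Qf_C_mul]
  have htL : ∀ j, t j ∈ Lj a' j := by
    intro j
    refine ⟨h.t0 j, fun k hk => ?_, ?_⟩
    · apply le_of_sq_le_sq' (ha'sq' k ▸ (hs3 k j hk).le) (h.t0 j)
    · apply le_of_sq_le_sq' (ha'sq' j ▸ (hs1 j).le) (ha'0 j)
  have hLK : ∀ j, Lj a' j ⊆ Kj t j := by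
    intro j x hx
    refine ⟨hx.1, ?_, fun k hk => ?_, fun k hk => ?_⟩
    · refine hx.2.2.trans ?_
      apply le_of_sq_le_sq' _ zero_le_one
      rw [ha'sq']; linarith [hs2 j]
    · exact (htL k).2.2.trans (hx.2.1 k hk)
    · exact hx.2.2.trans ((htL k).2.1 j hk)
  have hsgn : ∀ j, ∀ x ∈ Lj a' j, sg j * Qf e p x = |Qf e p x| := by
    intro j x hx
    have h5 : 0 ≤ sg j * Qf e p x := by
      rw [hpq']
      unfold Qf
      rw [eval_qS]
      have h6 := sg_mul_prod_nonneg j s' (x ^ 2)
        (fun k hk => by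
          rw [← ha'sq' k]
          have := hx.2.1 k hk
          have := ha'0 k
          nlinarith)
        (fun k hk => by
          have h7 : s' j ≤ s' k := hs'mono.monotone hk
          rw [← ha'sq' j] at h7
          have := hx.2.2
          have := hx.1
          nlinarith)
      calc (0:ℝ) ≤ lam * x ^ e * (sg j * ∏ k, (x ^ 2 - s' k)) :=
            mul_nonneg (mul_nonneg hlampos.le (pow_nonneg hx.1 e)) h6
        _ = _ := by ring
    rw [← abs_of_nonneg h5, abs_mul, abs_sg, one_mul]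
  -- maximisers
  have hmaxi : ∀ j, ∃ t', t' ∈ Lj a' j ∧ ∀ x ∈ Lj a' j, |Qf e p x| ≤ |Qf e p t'| := by
    intro j
    obtain ⟨t', ht', hmax⟩ := (isCompact_Lj a' j).exists_isMaxOn ⟨t j, htL j⟩
      (continuous_abs.comp (continuous_Qf e p)).continuousOn
    exact ⟨t', ht', fun x hx => hmax hx⟩
  choose t' ht' hmax' using hmaxi
  have hpt : ∀ j, |Qf e p (t j)| = |Qf e q (t j)| * (1 + ε * β j) := by
    intro j
    unfold Qf
    rw [hpT]
    have : 0 < 1 + ε * β j := by linarith [h1 j]
    rw [← mul_assoc, abs_mul, abs_of_pos this]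
  have hp1' : Qf e p 1 = Qf e q 1 := by
    unfold Qf
    rw [one_pow, one_pow, hp1]
  have hlower : ∀ j, |Qf e q (t j)| * (1 + ε * β j) ≤ |Qf e p (t' j)| := by
    intro j
    rw [← hpt]
    exact hmax' j _ (htL j)
  have hpos' : ∀ j, 0 < |Qf e p (t' j)| := by
    intro j
    refine lt_of_lt_of_le ?_ (hlower j)
    apply mul_pos (hMpos j)
    linarith [h1 j]
  have habs : ∀ x, |Qf e p x| = lam * |Qf e (qS s') x| := by
    intro x
    rw [hpq', abs_mul, abs_of_pos hlampos]
  refine ⟨a', t', lam, hlampos, ?_, ?_⟩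
  · rw [ha'sq]; exact hfac
  · apply cls_of_argmax (q := qS s') (by rw [ha'sq]) _ ht'
    · intro j x hx
      have := hmax' j x hx
      rw [habs, habs] at this
      exact le_of_mul_le_mul_left this hlampos
    · intro j h0
      have := hpos' j
      rw [habs, h0] at this
      simp at this
    · intro j k hjk
      have e1 := h2 j k hjk _ (hLK j (ht' j))
      rw [hsgn j _ (ht' j)] at e1
      have e2 := hlower k
      have e3 : |Qf e p (t' j)| ≤ |Qf e p (t' k)| := by
        have : |Qf e q (t k)| + ε * (|Qf e q (t k)| * β k) = |Qf e q (t k)| * (1 + ε * β k) := by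
          ring
        linarith
      rw [habs, habs] at e3
      exact le_of_mul_le_mul_left e3 hlampos
    · intro j
      have e1 := (h4 j).trans (hlower j)
      rw [← hp1', habs, hpq'] at e1
      have e2 : lam * (μ * Qf e (qS s') 1) ≤ lam * |Qf e (qS s') (t' j)| := by linarith
      exact le_of_mul_le_mul_left e2 hlampos
    · intro j
      have e1 := h3 j _ (hLK j (ht' j))
      rw [hsgn j _ (ht' j), ← hp1', habs, hpq'] at e1
      exact le_of_mul_le_mul_left e1 hlampos
    · intro j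
      apply le_of_sq_le_sq' _ zero_le_one
      rw [ha'sq']; linarith [hs2 j]

end Pool.Agent.H191.DS
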