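import Mathlib
import Pool.Agent.H191.DS.Perturb
import Pool.Agent.H191.DS.Cheb

/-!
# If all peaks are equal to the value at `1` the polynomial is a Chebyshev polynomial
-/

namespace Pool.Agent.H191.DS

open Finset Polynomial Filter Topology

variable {m : ℕ}

lemma exists_tau (n : ℕ) : (∃ τ : ℝ[X], Chebyshev.T ℝ ((2 * n : ℕ) : ℤ) = τ.comp (X ^ 2)) ∧
    (∃ τ : ℝ[X], Chebyshev.T ℝ ((2 * n + 1 : ℕ) : ℤ) = X * τ.comp (X ^ 2)) := by
  induction n with
  | zero =>
    refine ⟨⟨1, by simp⟩, ⟨1, by simp⟩⟩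
  | succ n ih =>
    obtain ⟨⟨τ0, h0⟩, ⟨τ1, h1⟩⟩ := ih
    have e0 : Chebyshev.T ℝ ((2 * (n + 1) : ℕ) : ℤ) = (C 2 * X * τ1 - τ0).comp (X ^ 2) := by
      have h := Chebyshev.T_add_two ℝ ((2 * n : ℕ) : ℤ)
      have e1 : ((2 * (n + 1) : ℕ) : ℤ) = ((2 * n : ℕ) : ℤ) + 2 := by push_cast; ring
      have e2 : ((2 * n : ℕ) : ℤ) + 1 = ((2 * n + 1 : ℕ) : ℤ) := by push_cast; ring
      rw [e1, h, e2, h0, h1]
      simp only [sub_comp, mul_comp, C_comp, X_comp]
      have : (C 2 : ℝ[X]) = 2 := rfl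
      rw [this]
      ring
    refine ⟨⟨_, e0⟩, ⟨C 2 * (C 2 * X * τ1 - τ0) - τ1, ?_⟩⟩
    have h := Chebyshev.T_add_two ℝ ((2 * n + 1 : ℕ) : ℤ)
    have e1 : ((2 * (n + 1) + 1 : ℕ) : ℤ) = ((2 * n + 1 : ℕ) : ℤ) + 2 := by push_cast; ring
    have e2 : ((2 * n + 1 : ℕ) : ℤ) + 1 = ((2 * (n + 1) : ℕ) : ℤ) := by push_cast; ring
    rw [e1, h, e2, e0, h1]
    simp only [sub_comp, mul_comp, C_comp, X_comp]
    have : (C 2 : ℝ[X]) = 2 := rfl
    rw [this]
    ring

lemma exists_tau' {e : ℕ} (he : e ≤ 1) (m : ℕ) : ∃ τ : ℝ[X],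
    Chebyshev.T ℝ ((2 * m + e : ℕ) : ℤ) = X ^ e * τ.comp (X ^ 2) := by
  interval_cases e
  · obtain ⟨τ, h⟩ := (exists_tau m).1
    exact ⟨τ, by simpa using h⟩
  · obtain ⟨τ, h⟩ := (exists_tau m).2
    exact ⟨τ, by simpa using h⟩

lemma tau_props {e : ℕ} (hm : 0 < m) {τ : ℝ[X]}
    (h : Chebyshev.T ℝ ((2 * m + e : ℕ) : ℤ) = X ^ e * τ.comp (X ^ 2)) :
    τ.natDegree = m ∧ τ.coeff m = 2 ^ (2 * m + e - 1) := by
  have hτ : τ ≠ 0 := by
    rintro rfl
    rw [zero_comp, mul_zero] at h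
    have := Chebyshev.natDegree_T ℝ ((2 * m + e : ℕ) : ℤ)
    rw [h] at this
    simp at this
    omega
  have h2 : (X ^ 2 : ℝ[X]).natDegree ≠ 0 := by simp
  have hc : τ.comp (X ^ 2) ≠ 0 := by
    intro h0
    rw [h0, mul_zero] at h
    have := Chebyshev.natDegree_T ℝ ((2 * m + e : ℕ) : ℤ)
    rw [h] at this
    simp at this
    omega
  have hdeg : τ.natDegree = m := by
    have h1 := Chebyshev.natDegree_T ℝ ((2 * m + e : ℕ) : ℤ)
    rw [h, natDegree_mul (pow_ne_zero _ X_ne_zero) hc, natDegree_comp] at h1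
    simp at h1
    omega
  refine ⟨hdeg, ?_⟩
  have h1 := Chebyshev.leadingCoeff_T ℝ ((2 * m + e : ℕ) : ℤ)
  rw [h, leadingCoeff_mul, leadingCoeff_comp h2] at h1
  simp only [leadingCoeff_X_pow, one_pow, mul_one, one_mul] at h1
  rw [← hdeg]
  change τ.leadingCoeff = _
  rw [h1, Int.natAbs_natCast, hdeg]

lemma Inter.coeff_rP {s T : Fin m → ℝ} (hm : 0 < m) (β : Fin m → ℝ) :
    (rP s T β).coeff m = -∑ j, β j * wj s T j := by
  classical
  obtain ⟨k, rfl⟩ : ∃ k, m = k + 1 := ⟨m - 1, by omega⟩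
  have hG : ∀ G : ℝ[X], ((1 - X) * G).coeff (k + 1) = G.coeff (k + 1) - G.coeff k := by
    intro G
    rw [sub_mul, one_mul, coeff_sub, coeff_X_mul]
  unfold rP
  have hmon : ∀ j : Fin (k + 1), (∏ i ∈ univ.erase j, (X - C (T i))).Monic :=
    fun j => monic_prod_of_monic _ _ fun _ _ => monic_X_sub_C _
  have hnat : ∀ j : Fin (k + 1), (∏ i ∈ univ.erase j, (X - C (T i))).natDegree = k := by
    intro j
    rw [natDegree_prod_of_monic _ _ fun _ _ => monic_X_sub_C _]
    simp [Finset.card_erase_of_mem]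
  rw [hG, finsetSum_coeff, finsetSum_coeff]
  have h1 : ∑ j : Fin (k + 1), (C (β j * wj s T j) * ∏ i ∈ univ.erase j, (X - C (T i))).coeff
      (k + 1) = 0 := by
    apply Finset.sum_eq_zero
    intro j _
    rw [coeff_C_mul, coeff_eq_zero_of_natDegree_lt (by rw [hnat]; omega), mul_zero]
  rw [h1, zero_sub]
  congr 1
  apply Finset.sum_congr rfl
  intro j _
  have := (hmon j).coeff_natDegree
  rw [hnat] at this
  rw [coeff_C_mul, this, mul_one]

/-- Uniqueness of the interpolation. -/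
lemma Inter.eq_rP {e : ℕ} {s T : Fin m → ℝ} (h : Inter e s T) (β : Fin m → ℝ) {f : ℝ[X]}
    (hdeg : f.degree ≤ m) (h1 : f.eval 1 = 0)
    (hT : ∀ j, f.eval (T j) = β j * (qS s).eval (T j)) : f = rP s T β := by
  classical
  have hcard : #(insert (1 : ℝ) (univ.image T)) = m + 1 := by
    rw [Finset.card_insert_of_notMem, Finset.card_image_of_injective _ h.T_inj]
    · simp
    · simp only [mem_image, mem_univ, true_and, not_exists]
      intro j hj
      have := h.T1 j
      linarith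
  apply eq_of_degrees_lt_of_eval_finset_eq (insert (1 : ℝ) (univ.image T))
  · rw [hcard]
    refine lt_of_le_of_lt hdeg ?_
    exact_mod_cast Nat.lt_succ_self m
  · rw [hcard]
    refine lt_of_le_of_lt (Inter.degree_rP β) ?_
    exact_mod_cast Nat.lt_succ_self m
  · intro x hx
    rw [Finset.mem_insert] at hx
    rcases hx with hx | hx
    · subst hx
      rw [h1, Inter.eval_rP_one]
    · simp only [mem_image, mem_univ, true_and] at hx
      obtain ⟨j, rfl⟩ := hx
      rw [h.eval_rP_T, hT]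

theorem cheb_of_all_eq {e : ℕ} {μ : ℝ} {a t : Fin m → ℝ} (he : e ≤ 1) (h : Cls e μ a t)
    (hμ : 0 < μ) (hm : 0 < m)
    (hall : ∀ j, |Qf e (qS (fun k => a k ^ 2)) (t j)| = Qf e (qS (fun k => a k ^ 2)) 1) :
    X ^ e * (qS (fun k => a k ^ 2)).comp (X ^ 2) =
      C (Qf e (qS (fun k => a k ^ 2)) 1) * Chebyshev.T ℝ ((2 * m + e : ℕ) : ℤ) := by
  set q := qS (fun k => a k ^ 2) with hq
  set M := Qf e q 1 with hM
  have hMpos : 0 < M := h.one_pos
  have hI := h.inter hμ
  obtain ⟨τ, hτ⟩ := exists_tau' he m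
  obtain ⟨hτdeg, hτcoeff⟩ := tau_props hm hτ
  have hTeval : ∀ x : ℝ, (Chebyshev.T ℝ ((2 * m + e : ℕ) : ℤ)).eval x = x ^ e * τ.eval (x ^ 2) := by
    intro x; rw [hτ]; simp
  have hMq : q.eval 1 = M := by rw [hM]; unfold Qf; simp
  have hτ1 : τ.eval 1 = 1 := by
    have := hTeval 1
    simp at this
    exact this.symm
  -- lower bound on the leading coefficient
  have hlead : 0 ≤ 1 - M * 2 ^ (2 * m + e - 1) := by
    set β : Fin m → ℝ := fun j => (q - C M * τ).eval (t j ^ 2) / q.eval (t j ^ 2) with hβ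
    have hqne : ∀ j, q.eval (t j ^ 2) ≠ 0 := by
      intro j h0
      apply h.t_ne hμ j
      unfold Qf
      rw [← hq, h0, mul_zero]
    have hf : q - C M * τ = rP (fun k => a k ^ 2) (fun k => t k ^ 2) β := by
      apply hI.eq_rP
      · refine (degree_sub_le _ _).trans ?_
        rw [max_le_iff]
        constructor
        · rw [hq, Inter.degree_qS]
        · refine (degree_mul_le _ _).trans ?_
          calc (C M).degree + τ.degree ≤ 0 + (m : WithBot ℕ) := by
                gcongr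
                · exact degree_C_le
                · rw [← hτdeg]; exact degree_le_natDegree
            _ = m := by simp
      · rw [eval_sub, eval_mul, eval_C, hτ1, hMq]; ring
      · intro j
        have := hqne j
        rw [hβ, ← hq]
        field_simp
    have hco : (q - C M * τ).coeff m = 1 - M * 2 ^ (2 * m + e - 1) := by
      rw [coeff_sub, coeff_C_mul, hτcoeff]
      have : q.coeff m = 1 := by
        have := (monic_qS (fun k => a k ^ 2)).coeff_natDegree
        rwa [natDegree_qS] at this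
      rw [this]
    rw [← hco, hf, Inter.coeff_rP hm, neg_nonneg]
    apply Finset.sum_nonpos
    intro j _
    apply mul_nonpos_of_nonneg_of_nonpos _ (hI.w_neg j).le
    -- `β j ≥ 0`
    have htj := hall j
    have hcheb : |t j ^ e * τ.eval (t j ^ 2)| ≤ 1 := by
      rw [← hTeval]
      apply Chebyshev.abs_eval_T_real_le_one
      rw [abs_of_nonneg (h.t0 j)]
      exact (h.ta j).trans (h.a1 j)
    have hte : 0 < t j ^ e := by
      have h1 := h.t_ne hμ j
      unfold Qf at h1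
      have h2 : t j ^ e ≠ 0 := fun h0 => h1 (by rw [h0, zero_mul])
      exact lt_of_le_of_ne (pow_nonneg (h.t0 j) e) h2.symm
    unfold Qf at htj
    rw [abs_mul, abs_of_pos hte] at htj hcheb
    have hle : |M * τ.eval (t j ^ 2)| ≤ |q.eval (t j ^ 2)| := by
      rw [abs_mul, abs_of_pos hMpos]
      have h3 : t j ^ e * (M * |τ.eval (t j ^ 2)|) ≤ t j ^ e * |q.eval (t j ^ 2)| := by
        have e1 : t j ^ e * |q.eval (t j ^ 2)| = M := by
          rw [htj, ← hMq]
        rw [e1]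
        nlinarith
      exact le_of_mul_le_mul_left h3 hte
    rw [hβ]
    simp only [eval_sub, eval_mul, eval_C]
    rw [sub_div, div_self (hqne j), sub_nonneg]
    have h4 : |M * τ.eval (t j ^ 2) / q.eval (t j ^ 2)| ≤ 1 := by
      rw [abs_div]
      exact div_le_one_of_le₀ hle (abs_nonneg _)
    exact (le_abs_self _).trans h4
  -- the polynomial
  set P : ℝ[X] := X ^ e * q.comp (X ^ 2) with hP
  have hPeval : ∀ x, P.eval x = Qf e q x := by
    intro x; rw [hP]; unfold Qf; simp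
  have hqmonic := monic_qS (fun k => a k ^ 2)
  rw [← hq] at hqmonic
  have hqnat : q.natDegree = m := natDegree_qS _
  have hcmonic : (q.comp (X ^ 2)).Monic := by
    apply hqmonic.comp (monic_X_pow 2)
    simp
  have hPmonic : P.Monic := (monic_X_pow e).mul hcmonic
  have hPnat : P.natDegree = 2 * m + e := by
    rw [hP, (monic_X_pow e).natDegree_mul hcmonic, natDegree_comp, hqnat]
    simp; ring
  have hP1 : (C M⁻¹ * P) = Chebyshev.T ℝ ((2 * m + e : ℕ) : ℤ) := by
    have hdeg : (C M⁻¹ * P).degree ≤ ((2 * m + e : ℕ) : WithBot ℕ) := by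
      refine (degree_mul_le _ _).trans ?_
      calc (C M⁻¹).degree + P.degree ≤ 0 + ((2 * m + e : ℕ) : WithBot ℕ) := by
            gcongr
            · exact degree_C_le
            · rw [← hPnat]; exact degree_le_natDegree
        _ = _ := by simp
    have hbnd : ∀ x ∈ Set.Icc (-1 : ℝ) 1, |(C M⁻¹ * P).eval x| ≤ 1 := by
      intro x hx
      rw [eval_mul, eval_C, hPeval, abs_mul, abs_of_pos (inv_pos.2 hMpos)]
      have h1 : |Qf e q x| = |Qf e q (|x|)| := by
        unfold Qf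
        rw [abs_mul, abs_mul, sq_abs, abs_pow, abs_pow, abs_abs]
      have h2 : |Qf e q (|x|)| ≤ M := h.sup (|x|) (abs_nonneg x) (abs_le.2 hx)
      rw [h1]
      rw [inv_mul_le_iff₀ hMpos]
      linarith
    apply (Chebyshev.coeff_eq_iff_of_forall_abs_le_one hdeg hbnd).1
    apply le_antisymm
    · exact Chebyshev.coeff_le_of_forall_abs_le_one hdeg hbnd
    · rw [coeff_C_mul]
      have : P.coeff (2 * m + e) = 1 := by
        have := hPmonic.coeff_natDegree
        rwa [hPnat] at this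
      rw [this, mul_one]
      rw [le_inv_comm₀ (by positivity) hMpos, ← one_div, le_div_iff₀ (by positivity)]
      linarith
  rw [← hP1, ← mul_assoc, ← C_mul, mul_inv_cancel₀ hMpos.ne', C_1, one_mul]

/-- (D) in the extremal case. -/
theorem Phi_le_of_all_eq {e : ℕ} {μ : ℝ} {a t : Fin m → ℝ} (he : e ≤ 1) (h : Cls e μ a t)
    (hμ : 0 < μ) (hm : 0 < m)
    (hall : ∀ j, |Qf e (qS (fun k => a k ^ 2)) (t j)| = Qf e (qS (fun k => a k ^ 2)) 1)
    {x y : ℝ} (hx0 : 0 ≤ x) (hx1 : x ≤ 1) :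
    Phi e (fun k => a k ^ 2) x y ≤ Phi e (fun k => a k ^ 2) 1 y := by
  have hc := cheb_of_all_eq he h hμ hm hall
  set q := qS (fun k => a k ^ 2) with hq
  set M := Qf e q 1 with hM
  have key : ∀ u : ℝ, Phi e (fun k => a k ^ 2) u y =
      M ^ 2 * Complex.normSq ((Chebyshev.T ℂ ((2 * m + e : ℕ) : ℤ)).eval ⟨u, y⟩) := by
    intro u
    have h1 := congrArg (aeval (⟨u, y⟩ : ℂ)) hc
    simp only [map_mul, map_pow, aeval_X, aeval_C, aeval_comp, Complex.coe_algebraMap] at h1
    rw [Phi_eq_normSq, ← hq]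
    have h2 : Complex.normSq (⟨u, y⟩ : ℂ) = u ^ 2 + y ^ 2 := by
      rw [Complex.normSq_apply]; ring
    rw [← h2, ← map_pow, ← Complex.normSq_mul, h1, Complex.normSq_mul, Complex.normSq_ofReal]
    have h3 : (aeval (⟨u, y⟩ : ℂ)) (Chebyshev.T ℝ ((2 * m + e : ℕ) : ℤ)) =
        (Chebyshev.T ℂ ((2 * m + e : ℕ) : ℤ)).eval ⟨u, y⟩ := by
      rw [← Chebyshev.map_T (algebraMap ℝ ℂ), eval_map_algebraMap]
    rw [h3]
    ring
  rw [key, key]
  apply mul_le_mul_of_nonneg_left _ (sq_nonneg M)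
  exact cheb_dominated (2 * m + e) (abs_le.2 ⟨by linarith, hx1⟩) y

end Pool.Agent.H191.DS
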