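import Mathlib
import Pool.Agent.H191.DS.Extremal

/-!
# The maximiser argument
-/

namespace Pool.Agent.H191.DS

open Finset Polynomial Filter Topology

variable {m : ℕ}

lemma Qf_qS_eq (e : ℕ) (a : Fin m → ℝ) (x : ℝ) :
    Qf e (qS (fun k => a k ^ 2)) x = x ^ e * ∏ k, (x ^ 2 - a k ^ 2) := by
  unfold Qf
  rw [eval_qS]

lemma eval_DP_qS (e : ℕ) (s : Fin m → ℝ) (x : ℝ) : (DP e (qS s)).eval x =
    (e : ℝ) * ∏ k, (x - s k) + 2 * x * ∑ k, ∏ i ∈ univ.erase k, (x - s i) := by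
  classical
  unfold DP
  rw [eval_add, eval_mul, eval_mul, eval_mul, eval_C, eval_C, eval_X, eval_qS]
  congr 2
  unfold qS
  rw [derivative_prod_finset, eval_finsetSum]
  apply Finset.sum_congr rfl
  intro k _
  rw [eval_mul, eval_prod]
  simp

lemma Phi_one_pos {e : ℕ} {s : Fin m → ℝ} (hs : ∀ k, s k < 1) (y : ℝ) :
    0 < Phi e s 1 y := by
  unfold Phi
  apply mul_pos
  · positivity
  · apply Finset.prod_pos
    intro k _
    unfold Nk
    rcases eq_or_ne y 0 with h | h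
    · subst h
      have := hs k
      have : 0 < (1 ^ 2 - 0 ^ 2 - s k) ^ 2 := by
        apply pow_pos; linarith
      positivity
    · have : 0 < 4 * (1:ℝ) ^ 2 * y ^ 2 := by positivity
      positivity

lemma Phi_zero (e : ℕ) (a : Fin m → ℝ) (x : ℝ) :
    Phi e (fun k => a k ^ 2) x 0 = (Qf e (qS (fun k => a k ^ 2)) x) ^ 2 := by
  unfold Phi
  rw [Qf_qS_eq, mul_pow, ← Finset.prod_pow]
  congr 1
  · rw [← pow_mul, mul_comm e 2, pow_mul]; norm_num
  · apply Finset.prod_congr rfl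
    intro k _
    unfold Nk; ring

lemma isClosed_cls (e : ℕ) (μ : ℝ) :
    IsClosed {p : (Fin m → ℝ) × (Fin m → ℝ) | Cls e μ p.1 p.2} := by
  have hcQ : ∀ f : (Fin m → ℝ) × (Fin m → ℝ) → ℝ, Continuous f →
      Continuous (fun p : (Fin m → ℝ) × (Fin m → ℝ) => Qf e (qS (fun k => p.1 k ^ 2)) (f p)) := by
    intro f hf
    simp_rw [Qf_qS_eq]
    fun_prop
  have hcD : ∀ j, Continuous (fun p : (Fin m → ℝ) × (Fin m → ℝ) =>
      (DP e (qS (fun k => p.1 k ^ 2))).eval (p.2 j ^ 2)) := by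
    intro j
    simp_rw [eval_DP_qS]
    fun_prop
  have heq : {p : (Fin m → ℝ) × (Fin m → ℝ) | Cls e μ p.1 p.2} =
      (⋂ j, {p | 0 ≤ p.2 j}) ∩ (⋂ j, {p | p.2 j ≤ p.1 j}) ∩
      (⋂ j, ⋂ k, ⋂ _ : j < k, {p | p.1 j ≤ p.2 k}) ∩ (⋂ j, {p | p.1 j ≤ 1}) ∩
      (⋂ j, {p | (DP e (qS (fun k => p.1 k ^ 2))).eval (p.2 j ^ 2) = 0}) ∩
      (⋂ j, ⋂ k, ⋂ _ : j < k, {p | |Qf e (qS (fun k => p.1 k ^ 2)) (p.2 j)| ≤
        |Qf e (qS (fun k => p.1 k ^ 2)) (p.2 k)|}) ∩
      (⋂ j, {p | μ * Qf e (qS (fun k => p.1 k ^ 2)) 1 ≤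
        |Qf e (qS (fun k => p.1 k ^ 2)) (p.2 j)|}) ∩
      (⋂ x : ℝ, ⋂ _ : 0 ≤ x, ⋂ _ : x ≤ 1, {p | |Qf e (qS (fun k => p.1 k ^ 2)) x| ≤
        Qf e (qS (fun k => p.1 k ^ 2)) 1}) := by
    ext p
    simp only [Set.mem_ofPred_eq, Set.mem_inter_iff, Set.mem_iInter]
    constructor
    · intro h
      exact ⟨⟨⟨⟨⟨⟨⟨h.t0, h.ta⟩, h.lt'⟩, h.a1⟩, h.crit⟩, h.mono⟩, h.low⟩, h.sup⟩
    · rintro ⟨⟨⟨⟨⟨⟨⟨h1, h2⟩, h3⟩, h4⟩, h5⟩, h6⟩, h7⟩, h8⟩
      exact ⟨h1, h2, h3, h4, h5, h6, h7, h8⟩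
  rw [heq]
  refine ((((((IsClosed.inter ?_ ?_).inter ?_).inter ?_).inter ?_).inter ?_).inter ?_).inter ?_
  · exact isClosed_iInter fun j => isClosed_le (by fun_prop) (by fun_prop)
  · exact isClosed_iInter fun j => isClosed_le (by fun_prop) (by fun_prop)
  · exact isClosed_iInter fun j => isClosed_iInter fun k => isClosed_iInter fun _ =>
      isClosed_le (by fun_prop) (by fun_prop)
  · exact isClosed_iInter fun j => isClosed_le (by fun_prop) (by fun_prop)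
  · exact isClosed_iInter fun j => isClosed_eq (hcD j) continuous_const
  · exact isClosed_iInter fun j => isClosed_iInter fun k => isClosed_iInter fun _ =>
      isClosed_le (continuous_abs.comp (hcQ _ (by fun_prop)))
        (continuous_abs.comp (hcQ _ (by fun_prop)))
  · exact isClosed_iInter fun j => isClosed_le (continuous_const.mul (hcQ _ continuous_const))
      (continuous_abs.comp (hcQ _ (by fun_prop)))
  · exact isClosed_iInter fun x => isClosed_iInter fun _ => isClosed_iInter fun _ =>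
      isClosed_le (continuous_abs.comp (hcQ _ continuous_const)) (hcQ _ continuous_const)

lemma isCompact_cls (e : ℕ) (μ : ℝ) :
    IsCompact {p : (Fin m → ℝ) × (Fin m → ℝ) | Cls e μ p.1 p.2} := by
  have hc : IsCompact ((Set.Icc (0 : Fin m → ℝ) 1) ×ˢ (Set.Icc (0 : Fin m → ℝ) 1)) :=
    isCompact_Icc.prod isCompact_Icc
  apply hc.of_isClosed_subset (isClosed_cls e μ)
  intro p hp
  have h : Cls e μ p.1 p.2 := hp
  refine ⟨⟨fun j => h.a0 j, fun j => h.a1 j⟩, ⟨fun j => h.t0 j, fun j => ?_⟩⟩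
  exact (h.ta j).trans (h.a1 j)

lemma continuous_Phi (e : ℕ) : Continuous (fun w : (Fin m → ℝ) × (ℝ × ℝ) =>
    Phi e (fun k => w.1 k ^ 2) w.2.1 w.2.2) := by
  unfold Phi Nk
  fun_prop

theorem Phi_le_of_cls {e : ℕ} {μ : ℝ} {a0 t0 : Fin m → ℝ} (he : e ≤ 1) (hm : 0 < m)
    (hμ : 0 < μ) (h0 : Cls e μ a0 t0) {x0 y0 : ℝ} (hx0 : 0 ≤ x0) (hx01 : x0 ≤ 1)
    (hy0 : 0 ≤ y0) :
    Phi e (fun k => a0 k ^ 2) x0 y0 ≤ Phi e (fun k => a0 k ^ 2) 1 y0 := by
  by_contra hcon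
  push Not at hcon
  have hy01 : y0 < 1 := by
    by_contra hy
    push Not at hy
    have := Phi_le_of_one_le (e := e) (s := fun k => a0 k ^ 2) (fun k => by
      have := h0.a1 k
      have := h0.a0 k
      nlinarith) hx0 hx01 hy
    linarith
  -- the compact set and the function
  set S : Set (((Fin m → ℝ) × (Fin m → ℝ)) × (ℝ × ℝ)) :=
    {p : (Fin m → ℝ) × (Fin m → ℝ) | Cls e μ p.1 p.2} ×ˢ
      (Set.Icc (0:ℝ) 1 ×ˢ Set.Icc (0:ℝ) 1) with hS
  have hScomp : IsCompact S := (isCompact_cls e μ).prod (isCompact_Icc.prod isCompact_Icc)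
  set F : ((Fin m → ℝ) × (Fin m → ℝ)) × (ℝ × ℝ) → ℝ := fun w =>
    Phi e (fun k => w.1.1 k ^ 2) w.2.1 w.2.2 / Phi e (fun k => w.1.1 k ^ 2) 1 w.2.2 with hF
  have hden : ∀ w ∈ S, 0 < Phi e (fun k => w.1.1 k ^ 2) 1 w.2.2 := by
    intro w hw
    apply Phi_one_pos
    intro k
    have h : Cls e μ w.1.1 w.1.2 := hw.1
    have := h.a_lt_one k
    have := h.a0 k
    nlinarith
  have hFc : ContinuousOn F S := by
    apply ContinuousOn.div
    · exact ((continuous_Phi e).comp (f := fun w : ((Fin m → ℝ) × (Fin m → ℝ)) × (ℝ × ℝ) =>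
        (w.1.1, w.2.1, w.2.2)) (by fun_prop)).continuousOn
    · exact ((continuous_Phi e).comp (f := fun w : ((Fin m → ℝ) × (Fin m → ℝ)) × (ℝ × ℝ) =>
        (w.1.1, (1:ℝ), w.2.2)) (by fun_prop)).continuousOn
    · intro w hw
      exact (hden w hw).ne'
  have hw0 : ((a0, t0), (x0, y0)) ∈ S := ⟨h0, ⟨⟨hx0, hx01⟩, ⟨hy0, hy01.le⟩⟩⟩
  obtain ⟨⟨⟨a, t⟩, ⟨x, y⟩⟩, hwS, hmax⟩ := hScomp.exists_isMaxOn ⟨_, hw0⟩ hFc
  have hcls : Cls e μ a t := hwS.1
  have hxI : 0 ≤ x ∧ x ≤ 1 := hwS.2.1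
  have hyI : 0 ≤ y ∧ y ≤ 1 := hwS.2.2
  have hmax' : ∀ (a' t' : Fin m → ℝ) (x' y' : ℝ), Cls e μ a' t' → 0 ≤ x' → x' ≤ 1 → 0 ≤ y' → y' ≤ 1 →
      Phi e (fun k => a' k ^ 2) x' y' / Phi e (fun k => a' k ^ 2) 1 y' ≤
      Phi e (fun k => a k ^ 2) x y / Phi e (fun k => a k ^ 2) 1 y := by
    intro a' t' x' y' hc h1 h2 h3 h4
    have := hmax (show ((a', t'), (x', y')) ∈ S from ⟨hc, ⟨⟨h1, h2⟩, ⟨h3, h4⟩⟩⟩)
    exact this
  have hs1 : ∀ k, a k ^ 2 < 1 := fun k => by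
    have := hcls.a_lt_one k
    have := hcls.a0 k
    nlinarith
  have hs0 : ∀ k, 0 ≤ a k ^ 2 := fun k => sq_nonneg _
  have hP1 : ∀ y, 0 < Phi e (fun k => a k ^ 2) 1 y := fun y => Phi_one_pos hs1 y
  have hbig : 1 < Phi e (fun k => a k ^ 2) x y / Phi e (fun k => a k ^ 2) 1 y := by
    have h1 := hmax' a0 t0 x0 y0 h0 hx0 hx01 hy0 hy01.le
    have h2 : 1 < Phi e (fun k => a0 k ^ 2) x0 y0 / Phi e (fun k => a0 k ^ 2) 1 y0 := by
      rw [lt_div_iff₀ (hden _ hw0)]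
      simpa using hcon
    linarith
  rw [lt_div_iff₀ (hP1 y), one_mul] at hbig
  have hypos : 0 < y := by
    rcases hyI.1.eq_or_lt with h | h
    · exfalso
      rw [← h, Phi_zero, Phi_zero] at hbig
      have h1 := hcls.sup x hxI.1 hxI.2
      have h2 : |Qf e (qS (fun k => a k ^ 2)) x| ≤ |Qf e (qS (fun k => a k ^ 2)) 1| :=
        h1.trans (le_abs_self _)
      have := sq_le_sq.2 h2
      linarith
    · exact h
  have hy1 : y < 1 := by
    rcases hyI.2.lt_or_eq with h | h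
    · exact h
    · exfalso
      have := Phi_le_of_one_le (e := e) (s := fun k => a k ^ 2) (fun k => (hs1 k).le)
        hxI.1 hxI.2 (by rw [h] : (1:ℝ) ≤ y)
      linarith
  have hx1 : x < 1 := by
    rcases hxI.2.lt_or_eq with h | h
    · exact h
    · exfalso
      rw [h] at hbig
      exact lt_irrefl _ hbig
  have hA : Aab e (fun k => a k ^ 2) x y = 0 := by
    apply stat_x hxI.1 hx1 hypos hs0
    intro x' h1 h2
    have := hmax' a t x' y hcls h1 h2 hyI.1 hyI.2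
    rwa [div_le_div_iff_of_pos_right (hP1 y)] at this
  have hB : Bab e (fun k => a k ^ 2) x y = Bab e (fun k => a k ^ 2) 1 y := by
    apply stat_y hxI.1 hypos hy1 hs0
    intro y' h1 h2
    exact hmax' a t x y' hcls hxI.1 hxI.2 h1.le h2
  by_cases hall : ∀ j, |Qf e (qS (fun k => a k ^ 2)) (t j)| = Qf e (qS (fun k => a k ^ 2)) 1
  · have := Phi_le_of_all_eq he hcls hμ hm hall hxI.1 hxI.2 (y := y)
    linarith
  · push Not at hall
    obtain ⟨j0, hj0⟩ := hall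
    set q := qS (fun k => a k ^ 2) with hq
    have htop : ∀ j, |Qf e q (t j)| ≤ Qf e q 1 := fun j =>
      hcls.sup (t j) (hcls.t0 j) ((hcls.ta j).trans (hcls.a1 j))
    have hj0' : |Qf e q (t j0)| < Qf e q 1 := lt_of_le_of_ne (htop j0) hj0
    have hone := hcls.one_pos
    rw [← hq] at hone
    have hμ1 : μ < 1 := by
      have h1 := hcls.low j0
      rw [← hq] at h1
      have h2 : μ * Qf e q 1 < 1 * Qf e q 1 := by linarith
      exact lt_of_mul_lt_mul_right h2 hone.le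
    have hI := hcls.inter hμ
    have ht1 : ∀ j, t j < 1 := fun j => lt_of_le_of_lt (hcls.ta j) (hcls.a_lt_one j)
    have ht1' : ∀ j, 0 < 1 - t j ^ 2 := fun j => by
      have := ht1 j
      have := hcls.t0 j
      nlinarith
    set β0 : Fin m → ℝ := fun j => (Qf e q 1) ^ 2 - |Qf e q (t j)| ^ 2 with hβ0
    set βE : Fin m → ℝ := fun j => 1 - t j ^ 2 with hβE
    have hβ0nn : ∀ j, 0 ≤ β0 j := fun j => by
      have := htop j
      have := abs_nonneg (Qf e q (t j))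
      simp only [hβ0]; nlinarith
    have hβ0pos : ∀ j, |Qf e q (t j)| < Qf e q 1 → 0 < β0 j := fun j hj => by
      have := abs_nonneg (Qf e q (t j))
      simp only [hβ0]; nlinarith
    have hLam0 : Lam (fun k => a k ^ 2) (rP (fun k => a k ^ 2) (fun k => t k ^ 2) β0) x y < 0 := by
      apply Lam_neg hI β0 hm hxI.1 hx1 hypos hy1 hA hB hβ0nn
      · intro j k hjk
        have := hcls.mono j k hjk
        rw [← hq] at this
        have := abs_nonneg (Qf e q (t j))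
        simp only [hβ0]; nlinarith
      · exact ⟨j0, hβ0pos j0 hj0'⟩
    have hlin : ∀ c : ℝ, Tendsto (fun ε : ℝ => ε * c) (𝓝[>] (0 : ℝ)) (𝓝 0) := by
      intro c
      have : Tendsto (fun ε : ℝ => ε * c) (𝓝 (0 : ℝ)) (𝓝 (0 * c)) :=
        (continuous_id.mul continuous_const).tendsto 0
      rw [zero_mul] at this
      exact this.mono_left nhdsWithin_le_nhds
    -- choose η
    obtain ⟨η, hη0, hη1, hη2⟩ : ∃ η : ℝ, 0 < η ∧
        Lam (fun k => a k ^ 2) (rP (fun k => a k ^ 2) (fun k => t k ^ 2) β0) x y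
          - η * Lam (fun k => a k ^ 2) (rP (fun k => a k ^ 2) (fun k => t k ^ 2) βE) x y < 0 ∧
        ∀ j, |Qf e q (t j)| < Qf e q 1 → 0 < β0 j - η * βE j := by
      have E1 := (hlin (-Lam (fun k => a k ^ 2)
        (rP (fun k => a k ^ 2) (fun k => t k ^ 2) βE) x y)).eventually
        (gt_mem_nhds (neg_pos.2 hLam0))
      have E2 : ∀ᶠ η in 𝓝[>] (0 : ℝ), ∀ j, |Qf e q (t j)| < Qf e q 1 → 0 < β0 j - η * βE j := by
        rw [eventually_all]
        intro j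
        by_cases hj : |Qf e q (t j)| < Qf e q 1
        · filter_upwards [(hlin (βE j)).eventually (gt_mem_nhds (hβ0pos j hj))] with η h1 _
          linarith
        · filter_upwards with η h'
          exact absurd h' hj
      obtain ⟨η, hη⟩ := ((E1.and E2).and self_mem_nhdsWithin).exists
      refine ⟨η, hη.2, ?_, hη.1.2⟩
      have := hη.1.1
      linarith
    set β : Fin m → ℝ := fun j => β0 j - η * βE j with hβ
    have hLam : Lam (fun k => a k ^ 2) (rP (fun k => a k ^ 2) (fun k => t k ^ 2) β) x y < 0 := by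
      rw [hβ, rP_sub, Lam_sub]
      exact hη1
    have hper := perturb hcls hμ hμ1 hm β
      (by
        intro j k hjk hjk2
        rw [← hq] at hjk2
        have h1 := hcls.t_lt_t hμ hjk
        have h2 := hcls.t0 j
        have h3 : t j ^ 2 < t k ^ 2 := by nlinarith
        simp only [hβ, hβ0, hβE]
        rw [hjk2]
        nlinarith)
      (by
        intro j hj
        rw [← hq] at hj
        have := ht1' j
        simp only [hβ, hβ0, hβE]
        rw [hj]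
        nlinarith)
      (by
        intro j hj
        exact hη2 j hj)
    have hsm := (hlin (Complex.normSq (aeval ((⟨1, y⟩ : ℂ) ^ 2)
      (rP (fun k => a k ^ 2) (fun k => t k ^ 2) β) / aeval ((⟨1, y⟩ : ℂ) ^ 2) q))).eventually
      (gt_mem_nhds (show 0 < -2 * Lam (fun k => a k ^ 2)
        (rP (fun k => a k ^ 2) (fun k => t k ^ 2) β) x y by linarith))
    obtain ⟨ε, ⟨⟨a', t', lam, hlam, hfac, hcls'⟩, hsmall⟩, hε⟩ :=
      ((hper.and hsm).and self_mem_nhdsWithin).exists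
    have hinc := ratio_increases (e := e) hs0 (fun k => sq_nonneg (a' k)) hxI.1 hypos hε hlam
      hfac hsmall
    have hle := hmax' a' t' x y hcls' hxI.1 hxI.2 hyI.1 hyI.2
    exact absurd hinc (not_lt.2 hle)

end Pool.Agent.H191.DS
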